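import Pool.Agent.Lib_helper41.LSP2.Defs2

/-! LSP2, module CE: the coefficients of the primes from the pairs (window, prime). -/

set_option autoImplicit false

namespace Pool.Agent.LSPCE

open Pool.Agent.LSP

open Finset
open scoped ComplexConjugate

/-- the coefficient of the prime `p` -/
noncomputable def bW (J : ℕ) (M : ℕ → ℝ) (u : ℕ → ℕ → ℝ) (θ : ℕ × ℕ → ℝ) (p : ℕ) : ℝ :=
  p * ∑ j ∈ range J, M j * u j p * θ (j, p)

/-- the weighted sum over the window `j` twisted by a character -/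
noncomputable def AW (P : Finset ℕ) (M : ℕ → ℝ) (u : ℕ → ℕ → ℝ) (θ : ℕ × ℕ → ℝ)
    (ψ : Σ q : ℕ, DirichletCharacter ℂ q) (j : ℕ) : ℂ :=
  ∑ p ∈ P, ((M j * u j p : ℝ) : ℂ) * ((θ (j, p) : ℂ) * ψ.2 (p : ZMod ψ.1))

/-- the kernel with the parameters of the problem -/
noncomputable def PK2 (κ : ℝ) (B₀ X : ℕ) (G : ℝ → ℝ) (C : ℕ → ℝ)
    (ψ : Σ q : ℕ, DirichletCharacter ℂ q) (s Z : ℝ) : ℂ :=
  PsiK C G (om2 κ X) (E2 κ X ^ 2) (Gs B₀ (E2 κ X)) (2 * (B₀ + 1) * E2 κ X) (R2 κ X) ψ s Z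

end Pool.Agent.LSPCE
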