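import Pool.Agent.Lib_helper84.LSP2.CE8
import Pool.Agent.Lib_helper84.LSP2.DefsC

/-!
# LSP2, module CE: bound and conjugation of the kernels
-/

set_option autoImplicit false

namespace Pool.Agent.LSPCE

open Pool.Agent.LSP

open Pool.Agent.KSL (RR)
open Pool.Agent.FG61 (mu phi cc ff AA Lam)
open Pool.Agent.LSPO (GOK KK hyp)
open Finset Filter Topology
open scoped ComplexConjugate

theorem kap_conj (c : ℕ) (ψ : Σ q : ℕ, DirichletCharacter ℂ q) (hψ : ψ.1 ≠ 0) (m : ℕ) (g : ℤ) :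
    kap c ⟨ψ.1, ψ.2⁻¹⟩ m g = conj (kap c ψ m g) := by
  have hne : NeZero ψ.1 := ⟨hψ⟩
  unfold kap
  rw [map_mul, map_sum]
  congr 1
  · rw [map_div₀, map_one, Complex.conj_ofReal]
  · refine sum_congr rfl fun u _ => ?_
    rw [map_mul, Complex.conj_ofReal, Complex.conj_conj]
    congr 1
    have h5 : star (ψ.2⁻¹ (u : ZMod ψ.1)) = (ψ.2⁻¹)⁻¹ (u : ZMod ψ.1) :=
      MulChar.star_apply' ψ.2⁻¹ _
    rw [inv_inv] at h5
    exact h5

theorem psik_conj_pr (κ : ℝ) (B₀ X : ℕ) (G : ℝ → ℝ) (C : ℕ → ℝ)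
    (ψ : Σ q : ℕ, DirichletCharacter ℂ q) (s Z : ℝ) :
    PK2 κ B₀ X G C ⟨ψ.1, ψ.2⁻¹⟩ s Z = conj (PK2 κ B₀ X G C ψ s Z) := by
  unfold PK2 PsiK
  rw [map_mul, map_mul, map_sum, Complex.conj_ofReal]
  have h4 : (starRingEnd ℂ) 4 = 4 := Complex.conj_ofNat 4
  rw [h4]
  congr 1
  refine sum_congr rfl fun m _ => ?_
  rw [map_mul, map_sum, Complex.conj_ofReal]
  congr 1
  refine sum_congr rfl fun g _ => ?_
  rw [map_mul, Complex.conj_ofReal, map_sum]
  congr 1
  refine sum_congr rfl fun c hc => ?_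
  rw [map_mul, Complex.conj_ofReal]
  congr 1
  refine kap_conj c ψ ?_ m g
  intro h
  rw [mem_filter, mem_Icc, h] at hc
  have := hc.2
  rw [zero_dvd_iff] at this
  omega

/-- the number of solutions of a congruence -/
theorem count_cong {c d m : ℕ} (hc : 1 ≤ c) (hd : d ∣ c) (g : ℤ) :
    (((range c).filter (fun u : ℕ => (d : ℤ) ∣ (u : ℤ) * m - g)).card : ℝ) ≤
      (c : ℝ) / d * (Nat.gcd d g.natAbs : ℝ) := by
  have hd1 : 1 ≤ d := Nat.pos_of_dvd_of_pos hd hc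
  rcases ((range c).filter (fun u : ℕ => (d : ℤ) ∣ (u : ℤ) * m - g)).eq_empty_or_nonempty with
    h | ⟨u₀, hu₀⟩
  · rw [h]
    simp only [card_empty, Nat.cast_zero]
    positivity
  · rw [mem_filter] at hu₀
    set e : ℕ := Nat.gcd d m with he
    have he1 : 1 ≤ e := Nat.gcd_pos_of_pos_left m hd1
    have hed : e ∣ d := Nat.gcd_dvd_left d m
    have heg : e ∣ g.natAbs := by
      have h1 : (e : ℤ) ∣ (u₀ : ℤ) * m - g := (Int.natCast_dvd_natCast.2 hed).trans hu₀.2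
      have h2 : (e : ℤ) ∣ (u₀ : ℤ) * m :=
        Dvd.dvd.mul_left (Int.natCast_dvd_natCast.2 (Nat.gcd_dvd_right d m)) _
      have h3 : (e : ℤ) ∣ g := (dvd_sub_right h2).1 h1
      exact Int.natCast_dvd.1 h3
    have hegd : e ≤ Nat.gcd d g.natAbs :=
      Nat.le_of_dvd (Nat.gcd_pos_of_pos_left _ hd1) (Nat.dvd_gcd hed heg)
    set d' : ℕ := d / e with hd'
    have hdd' : d = e * d' := (Nat.mul_div_cancel' hed).symm
    have hd'1 : 1 ≤ d' := by
      rcases Nat.eq_zero_or_pos d' with h | h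
      · rw [h] at hdd'; omega
      · exact h
    have hd'c : d' ∣ c := (Dvd.intro_left e hdd'.symm).trans hd
    have hmod : ∀ u : ℕ, (d : ℤ) ∣ (u : ℤ) * m - g → u % d' = u₀ % d' := by
      intro u hu
      have h1 : (d : ℤ) ∣ ((u : ℤ) - u₀) * m := by
        have := dvd_sub hu hu₀.2
        rwa [show (u : ℤ) * m - g - ((u₀ : ℤ) * m - g) = ((u : ℤ) - u₀) * m by ring] at this
      have h2 : (d' : ℤ) ∣ (u : ℤ) - u₀ := by
        obtain ⟨m', hm'⟩ := Nat.gcd_dvd_right d m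
        rw [← he] at hm'
        have hcop : Nat.Coprime d' m' := by
          have h3 : Nat.gcd (e * d') (e * m') = e := by rw [← hdd', ← hm']
          rw [Nat.gcd_mul_left] at h3
          have h4 : e * Nat.gcd d' m' = e * 1 := by rw [h3, mul_one]
          exact Nat.eq_of_mul_eq_mul_left he1 h4
        have h5 : ((e * d' : ℕ) : ℤ) ∣ ((u : ℤ) - u₀) * ((e * m' : ℕ) : ℤ) := by
          rw [← hdd', ← hm']; exact h1
        have h6 : (e : ℤ) * d' ∣ (e : ℤ) * (((u : ℤ) - u₀) * m') := by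
          have : ((u : ℤ) - u₀) * ((e * m' : ℕ) : ℤ) = (e : ℤ) * (((u : ℤ) - u₀) * m') := by
            push_cast; ring
          rw [← this]
          exact_mod_cast h5
        have h7 : (d' : ℤ) ∣ ((u : ℤ) - u₀) * m' :=
          (mul_dvd_mul_iff_left (by exact_mod_cast (by omega : e ≠ 0))).1 h6
        exact (Nat.isCoprime_iff_coprime.2 hcop).dvd_of_dvd_mul_right h7
      have h3 : (u : ℤ) ≡ u₀ [ZMOD d'] := (Int.modEq_iff_dvd.2 (by
        rw [← neg_sub]; exact (dvd_neg.2 h2)))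
      exact (Int.natCast_modEq_iff.1 h3)
    have hcard : ((range c).filter (fun u : ℕ => (d : ℤ) ∣ (u : ℤ) * m - g)).card ≤ c / d' := by
      rw [← card_range (c / d')]
      refine card_le_card_of_injOn (fun u => u / d') ?_ ?_
      · intro u hu
        rw [mem_coe, mem_filter, mem_range] at hu
        rw [mem_coe, mem_range]
        exact Nat.div_lt_div_of_lt_of_dvd hd'c hu.1
      · intro u hu w hw huw
        rw [mem_coe, mem_filter] at hu hw
        have h1 := hmod u hu.2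
        have h2 := hmod w hw.2
        dsimp only at huw
        rw [← Nat.div_add_mod u d', ← Nat.div_add_mod w d', huw, h1, h2]
    have hd0 : (0 : ℝ) < d := by exact_mod_cast hd1
    have hd'0 : (0 : ℝ) < d' := by exact_mod_cast hd'1
    calc (((range c).filter (fun u : ℕ => (d : ℤ) ∣ (u : ℤ) * m - g)).card : ℝ)
        ≤ ((c / d' : ℕ) : ℝ) := by exact_mod_cast hcard
      _ ≤ (c : ℝ) / d' := Nat.cast_div_le
      _ = (c : ℝ) / d * e := by
          rw [hdd']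
          push_cast
          have : (0 : ℝ) < e := by exact_mod_cast he1
          field_simp
      _ ≤ (c : ℝ) / d * (Nat.gcd d g.natAbs : ℝ) :=
          mul_le_mul_of_nonneg_left (by exact_mod_cast hegd) (by positivity)

/-- bound for the coefficients -/
theorem kap_le {c : ℕ} (hc : 1 ≤ c) (ψ : Σ q : ℕ, DirichletCharacter ℂ q) (m : ℕ) (g : ℤ) :
    ‖kap c ψ m g‖ ≤ (c : ℝ) / phi c * ∑ d ∈ c.divisors, (Nat.gcd d g.natAbs : ℝ) := by
  have hphi : (0 : ℝ) < phi c := by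
    have := Nat.totient_pos.2 hc
    unfold Pool.Agent.FG61.phi
    exact_mod_cast this
  have h1 : ‖kap c ψ m g‖ ≤ 1 / phi c * ∑ u ∈ range c, |cc c ((u : ℤ) * m - g).natAbs| := by
    unfold kap
    rw [norm_mul]
    have h2 : ‖(1 : ℂ) / (phi c : ℂ)‖ = 1 / phi c := by
      rw [norm_div, norm_one, Complex.norm_of_nonneg hphi.le]
    rw [h2]
    refine mul_le_mul_of_nonneg_left ?_ (by positivity)
    refine (norm_sum_le _ _).trans ?_
    calc ∑ u ∈ RR c, ‖conj (ψ.2 (u : ZMod ψ.1)) * ((cc c ((u : ℤ) * m - g).natAbs : ℝ) : ℂ)‖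
        ≤ ∑ u ∈ RR c, |cc c ((u : ℤ) * m - g).natAbs| := by
          refine sum_le_sum fun u _ => ?_
          rw [norm_mul, Complex.norm_conj, Complex.norm_real, Real.norm_eq_abs]
          exact mul_le_of_le_one_left (abs_nonneg _) (ψ.2.norm_le_one _)
      _ ≤ ∑ u ∈ range c, |cc c ((u : ℤ) * m - g).natAbs| :=
          sum_le_sum_of_subset_of_nonneg (filter_subset _ _) fun _ _ _ => abs_nonneg _
  refine h1.trans ?_
  have h3 : ∀ u ∈ range c, |cc c ((u : ℤ) * m - g).natAbs| ≤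
      ∑ d ∈ c.divisors, if (d : ℤ) ∣ (u : ℤ) * m - g then (d : ℝ) else 0 := by
    intro u _
    refine (cc_abs_le _ _).trans ?_
    rw [← sum_filter]
    refine sum_le_sum_of_subset_of_nonneg ?_ fun _ _ _ => Nat.cast_nonneg _
    intro d hd
    rw [Nat.mem_divisors, Nat.dvd_gcd_iff] at hd
    rw [mem_filter, Nat.mem_divisors]
    exact ⟨⟨hd.1.1, by omega⟩, Int.natCast_dvd.2 hd.1.2⟩
  calc 1 / phi c * ∑ u ∈ range c, |cc c ((u : ℤ) * m - g).natAbs|
      ≤ 1 / phi c * ∑ u ∈ range c, ∑ d ∈ c.divisors,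
          (if (d : ℤ) ∣ (u : ℤ) * m - g then (d : ℝ) else 0) :=
        mul_le_mul_of_nonneg_left (sum_le_sum h3) (by positivity)
    _ = 1 / phi c * ∑ d ∈ c.divisors,
          (((range c).filter (fun u : ℕ => (d : ℤ) ∣ (u : ℤ) * m - g)).card : ℝ) * d := by
        rw [sum_comm]
        congr 1
        refine sum_congr rfl fun d _ => ?_
        rw [← sum_filter, sum_const, nsmul_eq_mul]
    _ ≤ 1 / phi c * ∑ d ∈ c.divisors, (c : ℝ) * (Nat.gcd d g.natAbs : ℝ) := by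
        refine mul_le_mul_of_nonneg_left (sum_le_sum fun d hd => ?_) (by positivity)
        have hd2 := Nat.dvd_of_mem_divisors hd
        have hd0 : (0 : ℝ) < d := by exact_mod_cast Nat.pos_of_mem_divisors hd
        calc _ ≤ (c : ℝ) / d * (Nat.gcd d g.natAbs : ℝ) * d :=
              mul_le_mul_of_nonneg_right (count_cong hc hd2 g) hd0.le
          _ = (c : ℝ) * (Nat.gcd d g.natAbs : ℝ) := by field_simp
    _ = _ := by rw [← mul_sum]; ring

/-- the sum of the coefficients over the moduli -/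
theorem kap_sum_le (R : ℕ) (ψ : Σ q : ℕ, DirichletCharacter ℂ q) (m : ℕ) {g : ℤ}
    (hg : g ≠ 0) :
    ∑ c ∈ Icc 1 R, (1 / (c : ℝ)) * ‖kap c ψ m g‖ ≤ 2 * (1 + Real.log R) ^ 3 * tau g.natAbs := by
  have hlR : 0 ≤ Real.log (R : ℝ) := Real.log_natCast_nonneg R
  have hg1 : 1 ≤ g.natAbs := Int.natAbs_pos.2 hg
  have h1 : ∀ c ∈ Icc 1 R, (1 / (c : ℝ)) * ‖kap c ψ m g‖ ≤
      (2 * Real.log R + 1) * ∑ d ∈ Icc 1 R, if d ∣ c then
        (Nat.gcd d g.natAbs : ℝ) * (1 / (c : ℝ)) else 0 := by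
    intro c hc
    rw [mem_Icc] at hc
    have hc0 : (0 : ℝ) < c := by exact_mod_cast hc.1
    have h2 := kap_le hc.1 ψ m g
    have h3 : 1 / (Nat.totient c : ℝ) ≤ (2 * Real.log R + 1) / c := by
      refine Pool.Agent.Var73.inv_totient_le c hc.1 _ ?_
      have : Real.log (c : ℝ) ≤ Real.log R :=
        Real.log_le_log hc0 (by exact_mod_cast hc.2)
      linarith
    have hphi : (0 : ℝ) < (Nat.totient c : ℝ) := by exact_mod_cast Nat.totient_pos.2 hc.1
    calc (1 / (c : ℝ)) * ‖kap c ψ m g‖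
        ≤ (1 / (c : ℝ)) * ((c : ℝ) / phi c * ∑ d ∈ c.divisors, (Nat.gcd d g.natAbs : ℝ)) :=
          mul_le_mul_of_nonneg_left h2 (by positivity)
      _ = (1 / (Nat.totient c : ℝ)) * ∑ d ∈ c.divisors, (Nat.gcd d g.natAbs : ℝ) := by
          unfold Pool.Agent.FG61.phi
          field_simp
      _ ≤ ((2 * Real.log R + 1) / c) * ∑ d ∈ c.divisors, (Nat.gcd d g.natAbs : ℝ) :=
          mul_le_mul_of_nonneg_right h3 (sum_nonneg fun _ _ => Nat.cast_nonneg _)
      _ = (2 * Real.log R + 1) * ∑ d ∈ c.divisors, (Nat.gcd d g.natAbs : ℝ) * (1 / (c : ℝ)) := by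
          rw [← sum_mul]; ring
      _ ≤ _ := by
          refine mul_le_mul_of_nonneg_left ?_ (by linarith)
          rw [← sum_filter]
          refine sum_le_sum_of_subset_of_nonneg ?_ fun _ _ _ => by positivity
          intro d hd
          rw [mem_filter, mem_Icc]
          have h4 := Nat.dvd_of_mem_divisors hd
          exact ⟨⟨Nat.pos_of_mem_divisors hd, (Nat.le_of_dvd (by omega) h4).trans hc.2⟩, h4⟩
  have h2 : ∑ d ∈ Icc 1 R, (Nat.gcd d g.natAbs : ℝ) * (1 / (d : ℝ)) ≤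
      tau g.natAbs * (1 + Real.log R) := by
    calc ∑ d ∈ Icc 1 R, (Nat.gcd d g.natAbs : ℝ) * (1 / (d : ℝ))
        ≤ ∑ d ∈ Icc 1 R, ∑ e ∈ g.natAbs.divisors, if e ∣ d then (e : ℝ) * (1 / (d : ℝ)) else 0 := by
          refine sum_le_sum fun d hd => ?_
          rw [mem_Icc] at hd
          have h3 : Nat.gcd d g.natAbs ∈ g.natAbs.divisors := by
            rw [Nat.mem_divisors]
            exact ⟨Nat.gcd_dvd_right _ _, by omega⟩
          have h4 := single_le_sum (f := fun e : ℕ => if e ∣ d then (e : ℝ) * (1 / (d : ℝ)) else 0)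
            (fun e _ => by split_ifs <;> positivity) h3
          rw [if_pos (Nat.gcd_dvd_left _ _)] at h4
          exact h4
      _ = ∑ e ∈ g.natAbs.divisors, (e : ℝ) * ∑ d ∈ (Icc 1 R).filter (fun d => e ∣ d), 1 / (d : ℝ) := by
          rw [sum_comm]
          refine sum_congr rfl fun e _ => ?_
          rw [← sum_filter, mul_sum]
      _ ≤ ∑ e ∈ g.natAbs.divisors, (1 + Real.log R) := by
          refine sum_le_sum fun e he => ?_
          have he1 : 1 ≤ e := Nat.pos_of_mem_divisors he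
          have he0 : (0 : ℝ) < e := by exact_mod_cast he1
          calc (e : ℝ) * ∑ d ∈ (Icc 1 R).filter (fun d => e ∣ d), 1 / (d : ℝ)
              ≤ e * ((1 / (e : ℝ)) * (1 + Real.log R)) :=
                mul_le_mul_of_nonneg_left (sum_mult_inv he1 R) he0.le
            _ = 1 + Real.log R := by field_simp
      _ = tau g.natAbs * (1 + Real.log R) := by
          rw [sum_const, nsmul_eq_mul]; rfl
  refine (sum_le_sum h1).trans ?_
  rw [← mul_sum, sum_comm]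
  have h5 : ∀ d ∈ Icc 1 R, ∑ c ∈ Icc 1 R, (if d ∣ c then
        (Nat.gcd d g.natAbs : ℝ) * (1 / (c : ℝ)) else 0) ≤
        ((Nat.gcd d g.natAbs : ℝ) * (1 / (d : ℝ))) * (1 + Real.log R) := by
    intro d hd
    rw [mem_Icc] at hd
    rw [← sum_filter, ← mul_sum, mul_assoc]
    exact mul_le_mul_of_nonneg_left (sum_mult_inv hd.1 R) (Nat.cast_nonneg _)
  have ht0 : 0 ≤ tau g.natAbs := by unfold tau; positivity
  calc (2 * Real.log R + 1) * ∑ d ∈ Icc 1 R, ∑ c ∈ Icc 1 R, (if d ∣ c then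
        (Nat.gcd d g.natAbs : ℝ) * (1 / (c : ℝ)) else 0)
      ≤ (2 * Real.log R + 1) * ((tau g.natAbs * (1 + Real.log R)) * (1 + Real.log R)) := by
        refine mul_le_mul_of_nonneg_left ((sum_le_sum h5).trans ?_) (by linarith)
        rw [← sum_mul]
        exact mul_le_mul_of_nonneg_right h2 (by linarith)
    _ ≤ (2 * (1 + Real.log R)) * ((tau g.natAbs * (1 + Real.log R)) * (1 + Real.log R)) :=
        mul_le_mul_of_nonneg_right (by linarith) (by positivity)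
    _ = _ := by ring

/-- the bound for one kernel, general parameters -/
theorem psik_bound {G : ℝ → ℝ} {U M T K om : ℝ} (hU : 0 ≤ U) (hM0 : 0 ≤ M) (hT0 : 0 ≤ T)
    (hK : 0 ≤ K) (Q : ℕ) (Dl : ℕ) {R Q' : ℕ} {S : Finset ℤ} (hS : ∀ g ∈ S, g ≠ 0)
    {C : ℕ → ℝ} {s Z : ℝ} (hs : 0 < s) (hZ : 0 < Z) (hC : ∀ n, |C n| ≤ K / n)
    (hQ : ∀ n, C n ≠ 0 → n ≤ Q')
    (hKK : ∀ m : ℕ, 1 ≤ m → m ≤ Q' → ∀ g : ℤ, g ≠ 0 → |KK G om ((g : ℝ) * Z / (s * m))| ≤
      if |(g : ℝ) * Z / (s * m)| ≤ U then M else 0)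
    (hT : ∀ m : ℕ, 1 ≤ m → m ≤ Q' → ∀ g : ℤ, |(g : ℝ) * Z / (s * m)| ≤ U → tau g.natAbs ≤ T)
    (ψ : Σ q : ℕ, DirichletCharacter ℂ q) :
    ‖PsiK C G om Q S Dl R ψ s Z‖ ≤ 4 * Real.pi * (K * (2 * U * (s * Q') / Z)) *
      (T ^ 2 * M * ((1 + Real.log Dl) * (2 * (1 + Real.log R) ^ 3))) := by
  have hlR : 0 ≤ Real.log (R : ℝ) := Real.log_natCast_nonneg R
  have hlD : 0 ≤ Real.log (Dl : ℝ) := Real.log_natCast_nonneg Dl
  have hwc : ∀ (c : ℕ) (y : ℝ), |wc Dl c y| ≤ (1 / (c : ℝ)) * (1 + Real.log Dl) := by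
    intro c y
    unfold wc
    rw [abs_mul, abs_of_nonneg (by positivity : (0 : ℝ) ≤ 1 / (c : ℝ))]
    refine mul_le_mul_of_nonneg_left ?_ (by positivity)
    refine (abs_sum_le_sum_abs _ _).trans ?_
    refine le_trans (sum_le_sum fun l _ => ?_) (sum_inv_le_log (Nat.div_le_self Dl c))
    rw [abs_mul, abs_of_nonneg (by positivity : (0 : ℝ) ≤ 1 / (l : ℝ)),
      abs_of_nonneg (Pool.Agent.LSPO.hyp_nonneg _)]
    exact mul_le_of_le_one_right (by positivity) (Pool.Agent.LSPO.hyp_le_one _)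
  set L : ℝ := (1 + Real.log Dl) * (2 * (1 + Real.log R) ^ 3) with hL
  have hL0 : 0 ≤ L := by positivity
  have hc : ∀ (m : ℕ) (g : ℤ), g ≠ 0 → ‖∑ c ∈ (Icc 1 R).filter (fun c => ψ.1 ∣ c),
      ((wc Dl c (s * m - g * Z) : ℝ) : ℂ) * kap c ψ m g‖ ≤ L * tau g.natAbs := by
    intro m g hg
    refine (norm_sum_le _ _).trans ?_
    calc ∑ c ∈ (Icc 1 R).filter (fun c => ψ.1 ∣ c),
          ‖((wc Dl c (s * m - g * Z) : ℝ) : ℂ) * kap c ψ m g‖
        ≤ ∑ c ∈ (Icc 1 R).filter (fun c => ψ.1 ∣ c),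
          (1 + Real.log Dl) * ((1 / (c : ℝ)) * ‖kap c ψ m g‖) := by
          refine sum_le_sum fun c _ => ?_
          rw [norm_mul, Complex.norm_real, Real.norm_eq_abs]
          calc _ ≤ (1 / (c : ℝ)) * (1 + Real.log Dl) * ‖kap c ψ m g‖ :=
                mul_le_mul_of_nonneg_right (hwc c _) (norm_nonneg _)
            _ = _ := by ring
      _ ≤ ∑ c ∈ Icc 1 R, (1 + Real.log Dl) * ((1 / (c : ℝ)) * ‖kap c ψ m g‖) :=
          sum_le_sum_of_subset_of_nonneg (filter_subset _ _) fun _ _ _ => by positivity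
      _ = (1 + Real.log Dl) * ∑ c ∈ Icc 1 R, (1 / (c : ℝ)) * ‖kap c ψ m g‖ := by rw [mul_sum]
      _ ≤ (1 + Real.log Dl) * (2 * (1 + Real.log R) ^ 3 * tau g.natAbs) :=
          mul_le_mul_of_nonneg_left (kap_sum_le R ψ m hg) (by linarith)
      _ = L * tau g.natAbs := by rw [hL]; ring
  unfold PsiK
  rw [norm_mul]
  have h4 : ‖(4 : ℂ) * (Real.pi : ℂ)‖ = 4 * Real.pi := by
    rw [norm_mul, Complex.norm_real, Real.norm_eq_abs, abs_of_pos Real.pi_pos]
    simp
  rw [h4, mul_assoc (4 * Real.pi) (K * (2 * U * (s * Q') / Z))]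
  refine mul_le_mul_of_nonneg_left ?_ (by positivity)
  refine (norm_sum_le _ _).trans ?_
  have h1 : ∀ m ∈ Icc 1 Q, ‖(C m : ℂ) * ∑ g ∈ S,
      ((tau g.natAbs * KK G om ((g : ℝ) * Z / (s * m)) : ℝ) : ℂ) *
        ∑ c ∈ (Icc 1 R).filter (fun c => ψ.1 ∣ c),
          ((wc Dl c (s * m - g * Z) : ℝ) : ℂ) * kap c ψ m g‖ ≤
      if m ≤ Q' then (2 * U * s / Z) * K * (T ^ 2 * M * L) else 0 := by
    intro m hm
    rw [mem_Icc] at hm
    have hm0 : (0 : ℝ) < m := by exact_mod_cast hm.1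
    by_cases hCm : C m = 0
    · rw [hCm, Complex.ofReal_zero, zero_mul, norm_zero]
      split_ifs
      · positivity
      · exact le_refl _
    have hmQ := hQ m hCm
    rw [if_pos hmQ, norm_mul, Complex.norm_real, Real.norm_eq_abs]
    have hsm : 0 < s * m := mul_pos hs hm0
    have h2 : ‖∑ g ∈ S, ((tau g.natAbs * KK G om ((g : ℝ) * Z / (s * m)) : ℝ) : ℂ) *
        ∑ c ∈ (Icc 1 R).filter (fun c => ψ.1 ∣ c),
          ((wc Dl c (s * m - g * Z) : ℝ) : ℂ) * kap c ψ m g‖ ≤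
        2 * (U * (s * m) / Z) * (T ^ 2 * M * L) := by
      refine (norm_sum_le _ _).trans ?_
      have h3 : ∀ g ∈ S, ‖((tau g.natAbs * KK G om ((g : ℝ) * Z / (s * m)) : ℝ) : ℂ) *
        ∑ c ∈ (Icc 1 R).filter (fun c => ψ.1 ∣ c),
          ((wc Dl c (s * m - g * Z) : ℝ) : ℂ) * kap c ψ m g‖ ≤
          if |(g : ℝ)| ≤ U * (s * m) / Z then T ^ 2 * M * L else 0 := by
        intro g hg
        have hg0 := hS g hg
        have htg0 : 0 ≤ tau g.natAbs := by unfold tau; positivity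
        have h5 := hKK m hm.1 hmQ g hg0
        have h6 : |(g : ℝ) * Z / (s * m)| ≤ U ↔ |(g : ℝ)| ≤ U * (s * m) / Z := by
          rw [abs_div, abs_mul, abs_of_pos hZ, abs_of_pos hsm, div_le_iff₀ hsm, le_div_iff₀ hZ]
        rw [norm_mul, Complex.norm_real, Real.norm_eq_abs, abs_mul, abs_of_nonneg htg0]
        by_cases h7 : |(g : ℝ) * Z / (s * m)| ≤ U
        · rw [if_pos h7] at h5
          rw [if_pos (h6.1 h7)]
          have h8 := hT m hm.1 hmQ g h7
          calc tau g.natAbs * |KK G om ((g : ℝ) * Z / (s * m))| * _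
              ≤ (T * M) * (L * T) := by
                refine mul_le_mul (mul_le_mul h8 h5 (abs_nonneg _) hT0)
                  ((hc m g hg0).trans (mul_le_mul_of_nonneg_left h8 hL0)) (norm_nonneg _)
                  (mul_nonneg hT0 hM0)
            _ = T ^ 2 * M * L := by ring
        · rw [if_neg h7] at h5
          rw [if_neg (fun h => h7 (h6.2 h))]
          have h9 : |KK G om ((g : ℝ) * Z / (s * m))| = 0 := le_antisymm h5 (abs_nonneg _)
          rw [h9, mul_zero, zero_mul]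
      refine (sum_le_sum h3).trans ?_
      rw [← sum_filter, sum_const, nsmul_eq_mul]
      refine mul_le_mul_of_nonneg_right ?_ (by positivity)
      exact card_int_le (fun g hg => hS g (mem_filter.1 hg).1) (by positivity)
        (fun g hg => (mem_filter.1 hg).2)
    calc |C m| * _ ≤ (K / m) * (2 * (U * (s * m) / Z) * (T ^ 2 * M * L)) :=
          mul_le_mul (hC m) h2 (norm_nonneg _) (by positivity)
      _ = (2 * U * s / Z) * K * (T ^ 2 * M * L) := by
          field_simp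
  refine (sum_le_sum h1).trans ?_
  rw [← sum_filter, sum_const, nsmul_eq_mul]
  have h10 : (((Icc 1 Q).filter (fun m => m ≤ Q')).card : ℝ) ≤ Q' := by
    have : ((Icc 1 Q).filter (fun m => m ≤ Q')).card ≤ (Icc 1 Q').card := by
      refine card_le_card fun m hm => ?_
      rw [mem_filter, mem_Icc] at hm
      rw [mem_Icc]
      exact ⟨hm.1.1, hm.2⟩
    rw [Nat.card_Icc] at this
    exact_mod_cast (show ((Icc 1 Q).filter (fun m => m ≤ Q')).card ≤ Q' by omega)
  calc _ ≤ (Q' : ℝ) * ((2 * U * s / Z) * K * (T ^ 2 * M * L)) :=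
        mul_le_mul_of_nonneg_right h10 (by positivity)
    _ = _ := by ring

/-- bound for the kernels -/
theorem psik_le_pr {G : ℝ → ℝ} {U c : ℝ} (hG : Pool.Agent.LSPO.GOK G U c) {B₀ : ℕ}
    {κ : ℝ} (h0 : 0 < κ) (h1 : κ ≤ 1 / 1000) : ∃ X₀ : ℕ, ∀ X : ℕ, X₀ ≤ X →
    ∀ Z : ℝ, (X : ℝ) / 2 ≤ Z → Z ≤ 4 * X → ∀ (Q : ℕ) (C : ℕ → ℝ), CK2 κ X Q C →
    ∀ s : ℝ, 1 ≤ s → Q * s ≤ (X : ℝ) ^ (1 + 5 * κ) → ∀ ψ ∈ Chs (R2 κ X),
      ‖PK2 κ B₀ X G C ψ s Z‖ ≤ (X : ℝ) ^ (6 * κ) := by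
  have hU := hG.one_le
  have hc := hG.one_le'
  obtain ⟨X₀, hX₀⟩ := ce_par U c (32 * Real.pi * U + 16) hU hc B₀ h0 (by linarith : 1000 * κ ≤ 1)
  refine ⟨X₀, fun X hX Z hZ1 hZ2 Q C hC s hs hsQ ψ _ => ?_⟩
  obtain ⟨g1, g2, g3, g4, g5, ⟨T, hT0, hT2, hT⟩, g7, g8, g9⟩ := hX₀ X hX
  have hX0 : (0 : ℝ) < X := by linarith
  have hX1 : (1 : ℝ) ≤ X := by linarith
  have hZ0 : 0 < Z := by linarith
  have hs0 : 0 < s := by linarith
  set y : ℝ := (X : ℝ) ^ κ with hy
  set z : ℝ := (X : ℝ) ^ (κ / 10) with hz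
  have hpi : 0 < Real.pi := Real.pi_pos
  have hpU : 0 < 32 * Real.pi * U := by positivity
  have hy16 : 16 ≤ y := by linarith
  have hz0 : 0 < z := by positivity
  have hz1 : 1 ≤ z := by linarith
  have hy1 : 1 ≤ y := by linarith
  have hy0 : 0 < y := by linarith
  have e5 : (X : ℝ) ^ (1 + 5 * κ) = X * y ^ 5 := by
    have := pw (X := (X : ℝ)) (κ := κ) hX0 5
    rw [hy, ← this, Real.rpow_add hX0, Real.rpow_one]; norm_num
  rw [e5] at hsQ hT
  have hom : 0 < om2 κ X := by unfold om2; positivity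
  have hom1 : om2 κ X / 2 ≤ 1 := by
    have : om2 κ X ≤ 1 := by
      unfold om2
      exact Real.rpow_le_one_of_one_le_of_nonpos hX1 (by linarith)
    linarith
  set M : ℝ := c * (1 - Real.log (y ^ 6)⁻¹ - Real.log (om2 κ X / 2) + 2 * Real.log (1 + U)) with hMd
  have ha : 0 < (y ^ 6)⁻¹ := by positivity
  have ha1 : (y ^ 6)⁻¹ ≤ 1 := inv_le_one_of_one_le₀ (one_le_pow₀ hy1)
  have hM : ∀ v : ℝ, (y ^ 6)⁻¹ ≤ |v| → om2 κ X / 2 ≤ |1 - v| → |G v| ≤ M := fun v hv1 hv2 =>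
    Pool.Agent.LSPO.G_bound hG ha ha1 (by positivity) hom1 hv1 hv2
  have hM0 : 0 ≤ M := by
    have l1 : Real.log (y ^ 6)⁻¹ ≤ 0 := Real.log_nonpos ha.le ha1
    have l2 : Real.log (om2 κ X / 2) ≤ 0 := Real.log_nonpos (by positivity) hom1
    have l3 : 0 ≤ Real.log (1 + U) := Real.log_nonneg (by linarith)
    rw [hMd]
    exact mul_nonneg (by linarith) (by linarith)
  have hsm : ∀ m : ℕ, m ≤ Q → s * m ≤ X * y ^ 5 := by
    intro m hm
    have h2 : (m : ℝ) ≤ Q := by exact_mod_cast hm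
    have := mul_le_mul_of_nonneg_left h2 hs0.le
    linarith
  have hb := psik_bound (G := G) (U := U) (M := M) (T := T) (K := (X : ℝ) ^ (κ / 100))
    (om := om2 κ X) (by linarith) hM0 hT0 (by positivity) (E2 κ X ^ 2) (2 * (B₀ + 1) * E2 κ X)
    (R := R2 κ X) (Q' := Q) (S := Gs B₀ (E2 κ X)) (gs_ne _ _) (C := C) (s := s) (Z := Z)
    hs0 hZ0 hC.bdd hC.supp (fun m hm hmQ g hg => by
      have hm0 : (0 : ℝ) < m := by exact_mod_cast hm
      have hsm0 : 0 < s * m := mul_pos hs0 hm0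
      have hg1 : 1 ≤ |(g : ℝ)| := by
        have : (1 : ℤ) ≤ |g| := Int.one_le_abs hg
        have h2 : ((1 : ℤ) : ℝ) ≤ ((|g| : ℤ) : ℝ) := by exact_mod_cast this
        simpa using h2
      set w : ℝ := (g : ℝ) * Z / (s * m) with hw
      by_cases h7 : |w| ≤ U
      · rw [if_pos h7]
        have hwa : (y ^ 6)⁻¹ ≤ |w| := by
          rw [hw, abs_div, abs_mul, abs_of_pos hZ0, abs_of_pos hsm0, le_div_iff₀ hsm0]
          calc (y ^ 6)⁻¹ * (s * m) ≤ (y ^ 6)⁻¹ * (X * y ^ 5) :=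
                mul_le_mul_of_nonneg_left (hsm m hmQ) (by positivity)
            _ = X / y := by field_simp
            _ ≤ X / 2 := by
                apply div_le_div_of_nonneg_left hX0.le (by norm_num) (by linarith)
            _ ≤ Z := hZ1
            _ = 1 * Z := (one_mul _).symm
            _ ≤ |(g : ℝ)| * Z := mul_le_mul_of_nonneg_right hg1 hZ0.le
        by_cases h8 : om2 κ X ≤ |1 - w|
        · unfold Pool.Agent.LSPO.KK
          rw [abs_mul, abs_of_nonneg (Pool.Agent.LSPO.cl_nonneg _ _)]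
          calc |G w| * Pool.Agent.LSPO.cl (om2 κ X) w ≤ |G w| * 1 :=
                mul_le_mul_of_nonneg_left (Pool.Agent.LSPO.cl_le_one _ _) (abs_nonneg _)
            _ = |G w| := mul_one _
            _ ≤ M := hM w hwa (by linarith)
        · have h9 : KK G (om2 κ X) w = 0 := by
            unfold Pool.Agent.LSPO.KK
            rw [Pool.Agent.LSPO.cl_eq_zero hom (by linarith), mul_zero]
          rw [h9, abs_zero]
          exact hM0
      · rw [if_neg h7]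
        have h9 : KK G (om2 κ X) w = 0 := by
          unfold Pool.Agent.LSPO.KK
          rw [hG.supp w (by linarith), zero_mul]
        rw [h9, abs_zero])
    (fun m hm hmQ g hgU => by
      have hm0 : (0 : ℝ) < m := by exact_mod_cast hm
      have hsm0 : 0 < s * m := mul_pos hs0 hm0
      refine hT _ ?_
      rw [Nat.cast_natAbs, Int.cast_abs]
      rw [abs_div, abs_mul, abs_of_pos hZ0, abs_of_pos hsm0, div_le_iff₀ hsm0] at hgU
      have h2 : |(g : ℝ)| * 1 ≤ |(g : ℝ)| * Z :=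
        mul_le_mul_of_nonneg_left (by linarith) (abs_nonneg _)
      have h3 : U * (s * m) ≤ U * (X * y ^ 5) :=
        mul_le_mul_of_nonneg_left (hsm m hmQ) (by linarith)
      have h5 : 0 ≤ X * y ^ 5 := by positivity
      have h6 : 0 ≤ U * (X * y ^ 5) := by positivity
      linarith) ψ
  unfold PK2
  refine hb.trans ?_
  have hLD := Real.log_natCast_nonneg (2 * (B₀ + 1) * E2 κ X)
  have hLR := Real.log_natCast_nonneg (R2 κ X)
  have hr : 2 * U * (s * Q) / Z ≤ 4 * U * y ^ 5 := by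
    rw [div_le_iff₀ hZ0]
    calc 2 * U * (s * Q) ≤ 2 * U * (X * y ^ 5) :=
          mul_le_mul_of_nonneg_left (by linarith) (by linarith)
      _ = 4 * U * y ^ 5 * (X / 2) := by ring
      _ ≤ 4 * U * y ^ 5 * Z := mul_le_mul_of_nonneg_left hZ1 (by positivity)
  have hKz : (X : ℝ) ^ (κ / 100) ≤ z := Real.rpow_le_rpow_of_exponent_le hX1 (by linarith)
  have hLz : (1 + Real.log ((2 * (B₀ + 1) * E2 κ X : ℕ) : ℝ)) * (2 * (1 + Real.log (R2 κ X)) ^ 3) ≤
      2 * z := by linarith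
  have hL0 : 0 ≤ (1 + Real.log ((2 * (B₀ + 1) * E2 κ X : ℕ) : ℝ)) *
      (2 * (1 + Real.log (R2 κ X)) ^ 3) := by positivity
  have e6 : (X : ℝ) ^ (6 * κ) = y ^ 6 := by
    have := pw (X := (X : ℝ)) (κ := κ) hX0 6
    rw [hy, ← this]; norm_num
  have e10 : z ^ 10 = y := by
    rw [hz, hy, ← Real.rpow_natCast, ← Real.rpow_mul hX0.le]
    congr 1
    push_cast
    ring
  have h11 : (X : ℝ) ^ (κ / 100) * (2 * U * (s * Q) / Z) ≤ z * (4 * U * y ^ 5) :=
    mul_le_mul hKz hr (by positivity) hz0.le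
  have h12 : T ^ 2 * M * ((1 + Real.log ((2 * (B₀ + 1) * E2 κ X : ℕ) : ℝ)) *
      (2 * (1 + Real.log (R2 κ X)) ^ 3)) ≤ z * z * (2 * z) :=
    mul_le_mul (mul_le_mul hT2 g5 hM0 hz0.le) hLz hL0 (by positivity)
  calc 4 * Real.pi * ((X : ℝ) ^ (κ / 100) * (2 * U * (s * Q) / Z)) *
      (T ^ 2 * M * ((1 + Real.log ((2 * (B₀ + 1) * E2 κ X : ℕ) : ℝ)) *
      (2 * (1 + Real.log (R2 κ X)) ^ 3)))
      ≤ 4 * Real.pi * (z * (4 * U * y ^ 5)) * (z * z * (2 * z)) :=
        mul_le_mul (mul_le_mul_of_nonneg_left h11 (by positivity)) h12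
          (mul_nonneg (mul_nonneg (by positivity) hM0) hL0) (by positivity)
    _ = (32 * Real.pi * U) * (z ^ 4 * y ^ 5) := by ring
    _ ≤ z * (z ^ 4 * y ^ 5) := mul_le_mul_of_nonneg_right (by linarith) (by positivity)
    _ = z ^ 5 * y ^ 5 := by ring
    _ ≤ z ^ 10 * y ^ 5 := mul_le_mul_of_nonneg_right (pow_le_pow_right₀ hz1 (by norm_num))
        (by positivity)
    _ = (X : ℝ) ^ (6 * κ) := by rw [e10, e6]; ring

end Pool.Agent.LSPCE
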