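import Pool.Agent.Lib_helper84.LSP2.CE9
import Pool.Agent.Lib_helper84.LSP2.CE10

/-!
# LSP2, module CE: the statements of Top2
-/

set_option autoImplicit false

namespace Pool.Agent.LSP

open Pool.Agent.LSPCE

open Pool.Agent.KSL (RR)
open Pool.Agent.FG61 (mu phi cc ff AA Lam)
open Pool.Agent.LSPO (GOK KK hyp)
open Finset Filter Topology
open scoped ComplexConjugate

/-- bounds for the kernels -/
theorem kerp_bound_pr {G : ℝ → ℝ} {U c : ℝ} (hG : LSPO.GOK G U c) {B₀ : ℕ} (_hB : U ≤ B₀) {κ : ℝ}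
    (h0 : 0 < κ) (h1 : κ ≤ 1 / 1000) : ∃ X₀ : ℕ, ∀ X : ℕ, X₀ ≤ X → ∀ (Q : ℕ) (C : ℕ → ℝ),
    CK2 κ X Q C → ∀ s Z : ℝ, 1 ≤ s → Q * s ≤ (X : ℝ) ^ (1 + 6 * κ) → (X : ℝ) / 2 ≤ Z →
    Z ≤ 4 * X → ∀ ψ ∈ Chs (R2 κ X), ‖KerP G B₀ κ X C ψ s Z‖ ≤ (X : ℝ) ^ (8 * κ) := by
  have hU := hG.one_le
  have hc := hG.one_le'
  obtain ⟨X₀, hX₀⟩ := ce_par U c (64 * Real.pi * U + 16 + c) hU hc B₀ h0 (by linarith : 1000 * κ ≤ 1)
  refine ⟨X₀, fun X hX Q C hC s Z hs hsQ hZ1 hZ2 ψ _ => ?_⟩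
  obtain ⟨g1, g2, g3, g4, g5, ⟨T, hT0, hT2, hT⟩, g7, g8, g9⟩ := hX₀ X hX
  have hX0 : (0 : ℝ) < X := by linarith
  have hX1 : (1 : ℝ) ≤ X := by linarith
  have hZ0 : 0 < Z := by linarith
  have hs0 : 0 < s := by linarith
  set y : ℝ := (X : ℝ) ^ κ with hy
  set z : ℝ := (X : ℝ) ^ (κ / 10) with hz
  have hpi : 0 < Real.pi := Real.pi_pos
  have hpU : 0 < 64 * Real.pi * U := by positivity
  have hy16 : 16 ≤ y := by linarith
  have hz0 : 0 < z := by positivity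
  have hz1 : 1 ≤ z := by linarith
  have hy1 : 1 ≤ y := by linarith
  have hy0 : 0 < y := by linarith
  have e5 : (X : ℝ) ^ (1 + 5 * κ) = X * y ^ 5 := by
    have := pw (X := (X : ℝ)) (κ := κ) hX0 5
    rw [hy, ← this, Real.rpow_add hX0, Real.rpow_one]; norm_num
  have e6' : (X : ℝ) ^ (1 + 6 * κ) = X * y ^ 6 := by
    have := pw (X := (X : ℝ)) (κ := κ) hX0 6
    rw [hy, ← this, Real.rpow_add hX0, Real.rpow_one]; norm_num
  have hyX : y ≤ X := by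
    rw [hy]
    calc (X : ℝ) ^ κ ≤ (X : ℝ) ^ (1 : ℝ) := Real.rpow_le_rpow_of_exponent_le hX1 (by linarith)
      _ = X := Real.rpow_one _
  rw [e6'] at hsQ
  rw [e5] at hT
  have hom : 0 < om2 κ X := by unfold om2; positivity
  have hom1 : om2 κ X / 2 ≤ 1 := by
    have : om2 κ X ≤ 1 := by
      unfold om2
      exact Real.rpow_le_one_of_one_le_of_nonpos hX1 (by linarith)
    linarith
  set M : ℝ := c * (1 - Real.log ((y ^ 6)⁻¹ / 2) - Real.log (om2 κ X / 2) +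
    2 * Real.log (1 + U)) with hMd
  have ha' : 0 < (y ^ 6)⁻¹ := by positivity
  have ha1' : (y ^ 6)⁻¹ ≤ 1 := inv_le_one_of_one_le₀ (one_le_pow₀ hy1)
  have ha : 0 < (y ^ 6)⁻¹ / 2 := by positivity
  have ha1 : (y ^ 6)⁻¹ / 2 ≤ 1 := by linarith
  have hMz : M ≤ 2 * z := by
    have l1 : Real.log ((y ^ 6)⁻¹ / 2) = Real.log (y ^ 6)⁻¹ - Real.log 2 :=
      Real.log_div ha'.ne' (by norm_num)
    have l2 : Real.log 2 ≤ 1 := by
      have := Real.log_two_lt_d9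
      linarith
    have l3 : M = c * (1 - Real.log (y ^ 6)⁻¹ - Real.log (om2 κ X / 2) + 2 * Real.log (1 + U)) +
        c * Real.log 2 := by
      rw [hMd, l1]; ring
    have l4 : c * Real.log 2 ≤ c * 1 := mul_le_mul_of_nonneg_left l2 (by linarith)
    rw [l3]
    linarith
  have hM : ∀ v : ℝ, (y ^ 6)⁻¹ / 2 ≤ |v| → om2 κ X / 2 ≤ |1 - v| → |G v| ≤ M := fun v hv1 hv2 =>
    LSPO.G_bound hG ha ha1 (by positivity) hom1 hv1 hv2
  have hM0 : 0 ≤ M := by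
    have l1 : Real.log ((y ^ 6)⁻¹ / 2) ≤ 0 := Real.log_nonpos ha.le ha1
    have l2 : Real.log (om2 κ X / 2) ≤ 0 := Real.log_nonpos (by positivity) hom1
    have l3 : 0 ≤ Real.log (1 + U) := Real.log_nonneg (by linarith)
    rw [hMd]
    exact mul_nonneg (by linarith) (by linarith)
  have hsm : ∀ m : ℕ, m ≤ Q → s * m ≤ X * y ^ 6 := by
    intro m hm
    have h2 : (m : ℝ) ≤ Q := by exact_mod_cast hm
    have := mul_le_mul_of_nonneg_left h2 hs0.le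
    linarith
  have hb := psik_bound (G := G) (U := U) (M := M) (T := T) (K := (X : ℝ) ^ (κ / 100))
    (om := om2 κ X) (by linarith) hM0 hT0 (by positivity) (E2 κ X ^ 2) (2 * (B₀ + 1) * E2 κ X)
    (R := R2 κ X) (Q' := Q) (S := Gs B₀ (E2 κ X)) (gs_ne _ _) (C := C) (s := s) (Z := Z)
    hs0 hZ0 hC.bdd hC.supp (fun m hm hmQ g hg => by
      have hm0 : (0 : ℝ) < m := by exact_mod_cast hm
      have hsm0 : 0 < s * m := mul_pos hs0 hm0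
      have hg1 : 1 ≤ |(g : ℝ)| := by
        have : (1 : ℤ) ≤ |g| := Int.one_le_abs hg
        have h2 : ((1 : ℤ) : ℝ) ≤ ((|g| : ℤ) : ℝ) := by exact_mod_cast this
        simpa using h2
      set w : ℝ := (g : ℝ) * Z / (s * m) with hw
      by_cases h7 : |w| ≤ U
      · rw [if_pos h7]
        have hwa : (y ^ 6)⁻¹ / 2 ≤ |w| := by
          rw [hw, abs_div, abs_mul, abs_of_pos hZ0, abs_of_pos hsm0, le_div_iff₀ hsm0]
          calc (y ^ 6)⁻¹ / 2 * (s * m) ≤ (y ^ 6)⁻¹ / 2 * (X * y ^ 6) :=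
                mul_le_mul_of_nonneg_left (hsm m hmQ) (by positivity)
            _ = X / 2 := by field_simp
            _ ≤ Z := hZ1
            _ = 1 * Z := (one_mul _).symm
            _ ≤ |(g : ℝ)| * Z := mul_le_mul_of_nonneg_right hg1 hZ0.le
        by_cases h8 : om2 κ X ≤ |1 - w|
        · unfold LSPO.KK
          rw [abs_mul, abs_of_nonneg (LSPO.cl_nonneg _ _)]
          calc |G w| * LSPO.cl (om2 κ X) w ≤ |G w| * 1 :=
                mul_le_mul_of_nonneg_left (LSPO.cl_le_one _ _) (abs_nonneg _)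
            _ = |G w| := mul_one _
            _ ≤ M := hM w hwa (by linarith)
        · have h9 : KK G (om2 κ X) w = 0 := by
            unfold LSPO.KK
            rw [LSPO.cl_eq_zero hom (by linarith), mul_zero]
          rw [h9, abs_zero]
          exact hM0
      · rw [if_neg h7]
        have h9 : KK G (om2 κ X) w = 0 := by
          unfold LSPO.KK
          rw [hG.supp w (by linarith), zero_mul]
        rw [h9, abs_zero])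
    (fun m hm hmQ g hgU => by
      have hm0 : (0 : ℝ) < m := by exact_mod_cast hm
      have hsm0 : 0 < s * m := mul_pos hs0 hm0
      refine hT _ ?_
      rw [Nat.cast_natAbs, Int.cast_abs]
      rw [abs_div, abs_mul, abs_of_pos hZ0, abs_of_pos hsm0, div_le_iff₀ hsm0] at hgU
      have h2 : |(g : ℝ)| * (X / 2) ≤ |(g : ℝ)| * Z :=
        mul_le_mul_of_nonneg_left hZ1 (abs_nonneg _)
      have h3 : U * (s * m) ≤ U * (X * y ^ 6) :=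
        mul_le_mul_of_nonneg_left (hsm m hmQ) (by linarith)
      have h4 : X * |(g : ℝ)| ≤ X * (2 * U * y ^ 6) := by linarith
      have h5 : |(g : ℝ)| ≤ 2 * U * y ^ 6 := le_of_mul_le_mul_left h4 hX0
      have h6 : y ^ 6 ≤ X * y ^ 5 := by
        rw [pow_succ, mul_comm]
        exact mul_le_mul_of_nonneg_right hyX (by positivity)
      have h7 : 2 * U * y ^ 6 ≤ 2 * U * (X * y ^ 5) := mul_le_mul_of_nonneg_left h6 (by linarith)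
      have h8 : 0 ≤ X * y ^ 5 := by positivity
      have h9 : 0 ≤ U * (X * y ^ 5) := by positivity
      linarith) ψ
  refine hb.trans ?_
  have hLD := Real.log_natCast_nonneg (2 * (B₀ + 1) * E2 κ X)
  have hLR := Real.log_natCast_nonneg (R2 κ X)
  have hr : 2 * U * (s * Q) / Z ≤ 4 * U * y ^ 6 := by
    rw [div_le_iff₀ hZ0]
    calc 2 * U * (s * Q) ≤ 2 * U * (X * y ^ 6) :=
          mul_le_mul_of_nonneg_left (by linarith) (by linarith)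
      _ = 4 * U * y ^ 6 * (X / 2) := by ring
      _ ≤ 4 * U * y ^ 6 * Z := mul_le_mul_of_nonneg_left hZ1 (by positivity)
  have hKz : (X : ℝ) ^ (κ / 100) ≤ z := Real.rpow_le_rpow_of_exponent_le hX1 (by linarith)
  have hLz : (1 + Real.log ((2 * (B₀ + 1) * E2 κ X : ℕ) : ℝ)) * (2 * (1 + Real.log (R2 κ X)) ^ 3) ≤
      2 * z := by linarith
  have hL0 : 0 ≤ (1 + Real.log ((2 * (B₀ + 1) * E2 κ X : ℕ) : ℝ)) *
      (2 * (1 + Real.log (R2 κ X)) ^ 3) := by positivity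
  have e6 : (X : ℝ) ^ (8 * κ) = y ^ 8 := by
    have := pw (X := (X : ℝ)) (κ := κ) hX0 8
    rw [hy, ← this]; norm_num
  have e10 : z ^ 10 = y := by
    rw [hz, hy, ← Real.rpow_natCast, ← Real.rpow_mul hX0.le]
    congr 1
    push_cast
    ring
  have h11 : (X : ℝ) ^ (κ / 100) * (2 * U * (s * Q) / Z) ≤ z * (4 * U * y ^ 6) :=
    mul_le_mul hKz hr (by positivity) hz0.le
  have h12 : T ^ 2 * M * ((1 + Real.log ((2 * (B₀ + 1) * E2 κ X : ℕ) : ℝ)) *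
      (2 * (1 + Real.log (R2 κ X)) ^ 3)) ≤ z * (2 * z) * (2 * z) :=
    mul_le_mul (mul_le_mul hT2 hMz hM0 hz0.le) hLz hL0 (by positivity)
  calc 4 * Real.pi * ((X : ℝ) ^ (κ / 100) * (2 * U * (s * Q) / Z)) *
      (T ^ 2 * M * ((1 + Real.log ((2 * (B₀ + 1) * E2 κ X : ℕ) : ℝ)) *
      (2 * (1 + Real.log (R2 κ X)) ^ 3)))
      ≤ 4 * Real.pi * (z * (4 * U * y ^ 6)) * (z * (2 * z) * (2 * z)) :=
        mul_le_mul (mul_le_mul_of_nonneg_left h11 (by positivity)) h12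
          (mul_nonneg (mul_nonneg (by positivity) hM0) hL0) (by positivity)
    _ = (64 * Real.pi * U) * (z ^ 4 * y ^ 6) := by ring
    _ ≤ z * (z ^ 4 * y ^ 6) := mul_le_mul_of_nonneg_right (by linarith) (by positivity)
    _ = z ^ 5 * y ^ 6 := by ring
    _ ≤ z ^ 20 * y ^ 6 := mul_le_mul_of_nonneg_right (pow_le_pow_right₀ hz1 (by norm_num))
        (by positivity)
    _ = (z ^ 10) ^ 2 * y ^ 6 := by ring
    _ = (X : ℝ) ^ (8 * κ) := by rw [e10, e6]; ring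

/-- the expansion of Ramanujan sums in primitive characters -/
theorem ram_chr_pr {R : ℕ} {s N : ℕ} (hs : ∀ c ∈ Finset.Icc 1 R, s.Coprime c)
    (hN : ∀ c ∈ Finset.Icc 1 R, N.Coprime c) (w : ℕ → ℝ) (m : ℕ) (g : ℤ) :
    ((∑ c ∈ Finset.Icc 1 R, w c * cc c (((s * m : ℕ) : ℤ) - g * N).natAbs : ℝ) : ℂ) =
      ∑ ψ ∈ Chs R, ψ.2 (s : ZMod ψ.1) * conj (ψ.2 (N : ZMod ψ.1)) *
        ∑ c ∈ (Finset.Icc 1 R).filter (fun c => ψ.1 ∣ c), (w c : ℂ) * kap c ψ m g :=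
  LSPCE.ram_chr_pr hs hN w m g

theorem kerp_cj_pr (G : ℝ → ℝ) (B₀ : ℕ) (κ : ℝ) (X : ℕ) (C : ℕ → ℝ)
    (ψ : Σ q : ℕ, DirichletCharacter ℂ q) (s Z : ℝ) :
    KerP G B₀ κ X C ⟨ψ.1, ψ.2⁻¹⟩ s Z = conj (KerP G B₀ κ X C ψ s Z) :=
  psik_conj_pr κ B₀ X G C ψ s Z

/-- the total mass -/
theorem ce_mass_le {κ v C₁ : ℝ} (h0 : 0 < κ) (h1 : 1000 * κ ≤ v) {X J : ℕ} {dl : ℝ}
    {ε : (q : ℕ) → DirichletCharacter ℂ q → ℝ} {u : ℕ → ℕ → ℝ} (hX : (2 : ℝ) ≤ X)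
    (hW : Win κ v C₁ X J dl ε u) {m : ℕ → ℝ} (hm : ∀ j, 0 ≤ m j ∧ m j ≤ dl / (v * Real.log X)) :
    ∑ j ∈ range J, m j ≤ 1 := by
  have hl : 0 < Real.log X := Real.log_pos (by linarith)
  have hv : 0 < v := by linarith
  calc ∑ j ∈ range J, m j ≤ ∑ j ∈ range J, dl / (v * Real.log X) :=
        sum_le_sum fun j _ => (hm j).2
    _ = (J * dl) / (v * Real.log X) := by
        rw [sum_const, card_range, nsmul_eq_mul]; ring
    _ ≤ (κ * Real.log X) / (v * Real.log X) :=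
        div_le_div_of_nonneg_right hW.len (by positivity)
    _ ≤ 1 := by
        rw [div_le_one (by positivity)]
        exact mul_le_mul_of_nonneg_right (by linarith) hl.le

theorem ce_aw_eq (P : Finset ℕ) (m : ℕ → ℝ) (u : ℕ → ℕ → ℝ) (θ : ℕ × ℕ → ℝ)
    (ψ : Σ q : ℕ, DirichletCharacter ℂ q) (j : ℕ) :
    ∑ p ∈ P, ((m j * u j p * θ (j, p) : ℝ) : ℂ) * ψ.2 (p : ZMod ψ.1) = AW P m u θ ψ j := by
  unfold AW
  refine sum_congr rfl fun p _ => ?_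
  push_cast
  ring

/-- freezing at the centres of the windows, then the expansion: cross term -/
theorem frz_cross_pr {G : ℝ → ℝ} {U c : ℝ} (hG : LSPO.GOK G U c) {B₀ : ℕ} (_hB : U ≤ B₀) {κ v C₁ : ℝ}
    (h0 : 0 < κ) (h1 : 1000 * κ ≤ v) (h2 : v ≤ 1 / 80) :
    ∃ X₀ : ℕ, ∀ X : ℕ, X₀ ≤ X → ∀ (J : ℕ) (dl : ℝ) (ε : (q : ℕ) → DirichletCharacter ℂ q → ℝ)
    (u : ℕ → ℕ → ℝ), Win κ v C₁ X J dl ε u → ∀ m : ℕ → ℝ,
    (∀ j, 0 ≤ m j ∧ m j ≤ dl / (v * Real.log X)) → ∀ θ : ℕ × ℕ → ℝ, (∀ z, |θ z| ≤ 1) →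
    ∀ (N : ℕ) (Z : ℝ), N.Prime → (X : ℝ) / 2 ≤ Z → Z ≤ 4 * X →
    |Real.log ((N : ℝ) / Z)| ≤ (X : ℝ) ^ (-(132 * κ)) →
    ∀ (Q : ℕ) (C : ℕ → ℝ), CK2 κ X Q C → (Q : ℝ) * (X : ℝ) ^ (v + κ) ≤ (X : ℝ) ^ (1 + 5 * κ) →
      |SMP G B₀ κ X (CY (PB κ v X) (thE J m u θ) C) N -
        (∑ ψ ∈ Chs (R2 κ X), conj (ψ.2 (N : ZMod ψ.1)) * ∑ j ∈ Finset.range J,
          (∑ p ∈ PB κ v X, ((m j * u j p * θ (j, p) : ℝ) : ℂ) * ψ.2 (p : ZMod ψ.1)) *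
            KerP G B₀ κ X C ψ (Zj v X dl j) Z).re| ≤ (X : ℝ) ^ (-(20 * κ)) := by
  obtain ⟨X₀, hX₀⟩ := ce_cross_pr (Cw := C₁) hG (B₀ := B₀) h0 h1 h2
  refine ⟨max X₀ 2, fun X hX J dl ε u hW m hm θ hθ N Z hN hZ1 hZ2 hNZ Q C hC hQ => ?_⟩
  have hX2 : (2 : ℝ) ≤ X := by exact_mod_cast (le_max_right _ _).trans hX
  have h3 := hX₀ X ((le_max_left _ _).trans hX) J dl ε u hW m (fun j => (hm j).1)
    (ce_mass_le h0 h1 hX2 hW hm) θ (fun j p _ => hθ _) Z hZ1 hZ2 N hN hNZ Q C hC hQ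
  simp only [ce_aw_eq]
  exact h3

/-- freezing at the centres of the windows, then the expansion: quadratic term -/
theorem frz_quad_pr {G : ℝ → ℝ} {U c : ℝ} (hG : LSPO.GOK G U c) {B₀ : ℕ} (_hB : U ≤ B₀) {κ v C₁ : ℝ}
    (h0 : 0 < κ) (h1 : 1000 * κ ≤ v) (h2 : v ≤ 1 / 80) :
    ∃ X₀ : ℕ, ∀ X : ℕ, X₀ ≤ X → ∀ (J : ℕ) (dl : ℝ) (ε : (q : ℕ) → DirichletCharacter ℂ q → ℝ)
    (u : ℕ → ℕ → ℝ), Win κ v C₁ X J dl ε u → ∀ m : ℕ → ℝ,
    (∀ j, 0 ≤ m j ∧ m j ≤ dl / (v * Real.log X)) → ∀ θ : ℕ × ℕ → ℝ, (∀ z, |θ z| ≤ 1) →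
    ∀ (N : ℕ) (Z : ℝ), N.Prime → (X : ℝ) / 2 ≤ Z → Z ≤ 4 * X →
    |Real.log ((N : ℝ) / Z)| ≤ (X : ℝ) ^ (-(132 * κ)) →
    ∀ (Q : ℕ) (C : ℕ → ℝ), CK2 κ X Q C →
    (Q : ℝ) * (X : ℝ) ^ (2 * (v + κ)) ≤ (X : ℝ) ^ (1 + 5 * κ) →
      |SMP G B₀ κ X (CY (PB κ v X) (thE J m u θ) (CY (PB κ v X) (thE J m u θ) C)) N -
        (∑ ψ ∈ Chs (R2 κ X), conj (ψ.2 (N : ZMod ψ.1)) * ∑ j ∈ Finset.range J,
          ∑ j' ∈ Finset.range J,
          (∑ p ∈ PB κ v X, ((m j * u j p * θ (j, p) : ℝ) : ℂ) * ψ.2 (p : ZMod ψ.1)) *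
          (∑ p ∈ PB κ v X, ((m j' * u j' p * θ (j', p) : ℝ) : ℂ) * ψ.2 (p : ZMod ψ.1)) *
            KerP G B₀ κ X C ψ (Zj v X dl j * Zj v X dl j') Z).re| ≤ (X : ℝ) ^ (-(20 * κ)) := by
  obtain ⟨X₀, hX₀⟩ := ce_quad_pr (Cw := C₁) hG (B₀ := B₀) h0 h1 h2
  refine ⟨max X₀ 2, fun X hX J dl ε u hW m hm θ hθ N Z hN hZ1 hZ2 hNZ Q C hC hQ => ?_⟩
  have hX2 : (2 : ℝ) ≤ X := by exact_mod_cast (le_max_right _ _).trans hX
  have h3 := hX₀ X ((le_max_left _ _).trans hX) J dl ε u hW m (fun j => (hm j).1)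
    (ce_mass_le h0 h1 hX2 hW hm) θ (fun j p _ => hθ _) Z hZ1 hZ2 N hN hNZ Q C hC hQ
  simp only [ce_aw_eq]
  exact h3

end Pool.Agent.LSP
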