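import Pool.Agent.Lib_helper73.Var.Block
import Pool.Agent.Lib_helper61.FG.Defs

/-!
# LSP2, module CE: Ramanujan sums of `k m - g N` in terms of primitive characters
-/

set_option autoImplicit false

namespace Pool.Agent.LSPCE

open Finset Complex Pool.Agent.Var73
open Pool.Agent.FG61 (mu cc)
open scoped ComplexConjugate

/-- the Ramanujan sum depends on the gcd only -/
theorem cc_gcd {c a b : ℕ} (h : Nat.gcd c a = Nat.gcd c b) : cc c a = cc c b := by
  unfold cc; rw [h]

/-- periodicity and invariance under units -/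
theorem cc_unit {c : ℕ} {a b t : ℤ} (ht : Int.gcd (c : ℤ) t = 1) (h : (c : ℤ) ∣ a - t * b) :
    cc c a.natAbs = cc c b.natAbs := by
  apply cc_gcd
  have h1 : Int.gcd (c : ℤ) a = Int.gcd (c : ℤ) b := by
    obtain ⟨j, hj⟩ := h
    have h2 : a = t * b + c * j := by linarith
    rw [h2, Int.gcd_add_mul_left_right]
    exact Int.gcd_mul_right_right_of_gcd_eq_one ht
  simpa [Int.gcd] using h1

/-- the coefficient of the character `ψ` -/
noncomputable def kp (c : ℕ) {d : ℕ} (ψ : DirichletCharacter ℂ d) (m : ℕ) (g : ℤ) : ℂ :=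
  1 / (Nat.totient c : ℂ) * ∑ u ∈ (range c).filter (fun u => Nat.Coprime u c),
    conj (ψ (u : ZMod d)) * ((cc c ((u : ℤ) * m - g).natAbs : ℝ) : ℂ)

/-- expansion of a function on the units in characters -/
theorem char_exp {c : ℕ} [NeZero c] (F : ℕ → ℂ) {a : ℕ} (ha : a < c) (hac : Nat.Coprime a c) :
    F a = ∑ χ : DirichletCharacter ℂ c, χ (a : ZMod c) * (1 / (Nat.totient c : ℂ) *
      ∑ u ∈ (range c).filter (fun u => Nat.Coprime u c), conj (χ (u : ZMod c)) * F u) := by
  have hphi : (Nat.totient c : ℂ) ≠ 0 := by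
    exact_mod_cast (Nat.totient_pos.2 (NeZero.pos c)).ne'
  have e1 : ∀ χ : DirichletCharacter ℂ c, χ (a : ZMod c) * (1 / (Nat.totient c : ℂ) *
      ∑ u ∈ (range c).filter (fun u => Nat.Coprime u c), conj (χ (u : ZMod c)) * F u) =
      ∑ u ∈ (range c).filter (fun u => Nat.Coprime u c), 1 / (Nat.totient c : ℂ) * F u *
        (χ ((u : ZMod c)⁻¹) * χ (a : ZMod c)) := by
    intro χ
    rw [mul_sum, mul_sum]
    refine sum_congr rfl fun u hu => ?_
    rw [mem_filter] at hu
    rw [conj_char χ ((ZMod.isUnit_iff_coprime u c).2 hu.2)]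
    ring
  rw [sum_congr rfl fun χ _ => e1 χ, sum_comm]
  have e2 : ∀ u ∈ (range c).filter (fun u => Nat.Coprime u c),
      ∑ χ : DirichletCharacter ℂ c, 1 / (Nat.totient c : ℂ) * F u *
        (χ ((u : ZMod c)⁻¹) * χ (a : ZMod c)) = if a = u then F a else 0 := by
    intro u hu
    rw [mem_filter, mem_range] at hu
    rw [← mul_sum, DirichletCharacter.sum_char_inv_mul_char_eq ℂ
      ((ZMod.isUnit_iff_coprime u c).2 hu.2)]
    by_cases h : a = u
    · subst h
      rw [if_pos rfl, if_pos rfl]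
      field_simp
    · rw [if_neg h, if_neg, mul_zero]
      intro h2
      apply h
      rw [ZMod.natCast_eq_natCast_iff'] at h2
      rw [Nat.mod_eq_of_lt hu.1, Nat.mod_eq_of_lt ha] at h2
      exact h2.symm
  rw [sum_congr rfl e2, sum_ite_eq, if_pos]
  rw [mem_filter, mem_range]
  exact ⟨ha, hac⟩

/-- the character expansion of the Ramanujan sum -/
theorem cc_exp {c : ℕ} (hc : 1 ≤ c) {k N : ℕ} (hk : Nat.Coprime k c) (hN : Nat.Coprime N c)
    (m : ℕ) (g : ℤ) :
    ((cc c ((k : ℤ) * m - g * N).natAbs : ℝ) : ℂ) =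
      ∑ x ∈ c.divisors.sigma Pr, x.2 (k : ZMod x.1) * conj (x.2 (N : ZMod x.1)) *
        kp c x.2 m g := by
  haveI : NeZero c := ⟨by omega⟩
  have hkU : IsUnit (k : ZMod c) := (ZMod.isUnit_iff_coprime k c).2 hk
  have hNU : IsUnit (N : ZMod c) := (ZMod.isUnit_iff_coprime N c).2 hN
  -- the residue `a = k / N`
  set a : ℕ := ((k : ZMod c) * (N : ZMod c)⁻¹).val with ha
  have hac : a < c := ZMod.val_lt _
  have haz : (a : ZMod c) = (k : ZMod c) * (N : ZMod c)⁻¹ := by
    rw [ha, ZMod.natCast_val, ZMod.cast_id]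
  have haN : (a : ZMod c) * N = k := by
    rw [haz, mul_assoc, ZMod.inv_mul_of_unit _ hNU, mul_one]
  have haU : IsUnit (a : ZMod c) := by
    have h : IsUnit ((a : ZMod c) * N) := by rw [haN]; exact hkU
    exact isUnit_of_mul_isUnit_left h
  have haco : Nat.Coprime a c := (ZMod.isUnit_iff_coprime a c).1 haU
  have h1 : cc c ((k : ℤ) * m - g * N).natAbs = cc c ((a : ℤ) * m - g).natAbs := by
    refine cc_unit (t := (N : ℤ)) ?_ ?_
    · rw [Int.gcd_comm]; simpa [Int.gcd] using hN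
    · rw [← ZMod.intCast_zmod_eq_zero_iff_dvd]
      push_cast
      rw [← haN]; ring
  rw [h1, char_exp (fun u => ((cc c ((u : ℤ) * m - g).natAbs : ℝ) : ℂ)) hac haco]
  have h2 : ∀ χ : DirichletCharacter ℂ c, χ (a : ZMod c) * (1 / (Nat.totient c : ℂ) *
      ∑ u ∈ (range c).filter (fun u => Nat.Coprime u c), conj (χ (u : ZMod c)) *
        ((cc c ((u : ℤ) * m - g).natAbs : ℝ) : ℂ)) =
      (fun x : Chr => x.2 (k : ZMod x.1) * conj (x.2 (N : ZMod x.1)) * kp c x.2 m g) (prm χ) := by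
    intro χ
    have h3 : ∀ u : ℕ, Nat.Coprime u c → χ (u : ZMod c) = (prm χ).2 (u : ZMod (prm χ).1) := by
      intro u hu
      rw [char_prm χ u, if_pos]
      · rfl
      · exact Nat.Coprime.coprime_dvd_right (Nat.div_dvd_of_dvd χ.conductor_dvd_level) hu
    have h4 : χ (a : ZMod c) = χ (k : ZMod c) * conj (χ (N : ZMod c)) := by
      rw [haz, map_mul, conj_char χ hNU]
    dsimp only
    rw [h4, h3 k hk, h3 N hN]
    unfold kp
    congr 2
    refine sum_congr rfl fun u hu => ?_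
    rw [mem_filter] at hu
    rw [h3 u hu.2]
  rw [sum_congr rfl fun χ _ => h2 χ]
  exact sum_chars c (fun x : Chr => x.2 (k : ZMod x.1) * conj (x.2 (N : ZMod x.1)) * kp c x.2 m g)

end Pool.Agent.LSPCE
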