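import Pool.Agent.Lib_helper84.LSP2.CE1
import Pool.Agent.Lib_helper61.FG.P.CE

/-!
# LSP2, module CE: the coefficient of the trivial character
-/

set_option autoImplicit false

namespace Pool.Agent.LSPCE

open Finset Complex Pool.Agent.Var73
open Pool.Agent.FG61 (mu cc)
open Pool.Agent.Var35 (e)
open scoped ComplexConjugate

/-- the Ramanujan sum of an integer as an exponential sum -/
theorem cc_int {c : ℕ} (hc : 1 ≤ c) (k : ℤ) :
    ((cc c k.natAbs : ℝ) : ℂ) =
      ∑ a ∈ (range c).filter (fun a => Nat.Coprime a c), e ((a : ℝ) * k / c) := by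
  obtain ⟨n, rfl | rfl⟩ := k.eq_nat_or_neg
  · rw [Int.natAbs_natCast, Pool.Agent.FG61.cc_exp c n hc]
    simp only [Int.cast_natCast]
  · rw [Int.natAbs_neg, Int.natAbs_natCast]
    have h1 : ((cc c n : ℝ) : ℂ) = conj ((cc c n : ℝ) : ℂ) := (conj_ofReal _).symm
    rw [h1, Pool.Agent.FG61.cc_exp c n hc, map_sum]
    refine sum_congr rfl fun a _ => ?_
    unfold e
    rw [← Complex.exp_conj]
    congr 1
    simp only [map_mul, Complex.conj_ofReal, Complex.conj_I]
    push_cast
    ring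

/-- the coefficient of the trivial character -/
theorem kp_one {c : ℕ} (hc : 1 ≤ c) (m : ℕ) (g : ℤ) :
    kp c (1 : DirichletCharacter ℂ 1) m g =
      ((cc c m * cc c g.natAbs / Nat.totient c : ℝ) : ℂ) := by
  unfold kp
  have h0 : ∀ u ∈ (range c).filter (fun u => Nat.Coprime u c),
      conj ((1 : DirichletCharacter ℂ 1) (u : ZMod 1)) * ((cc c ((u : ℤ) * m - g).natAbs : ℝ) : ℂ) =
      ∑ a ∈ (range c).filter (fun a => Nat.Coprime a c),
        e ((a : ℝ) * ((-g : ℤ) : ℝ) / c) * e ((u : ℝ) * ((a * m : ℕ) : ℝ) / c) := by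
    intro u hu
    have h1 : (1 : DirichletCharacter ℂ 1) (u : ZMod 1) = 1 :=
      MulChar.one_apply (isUnit_of_subsingleton _)
    rw [h1, map_one, one_mul, cc_int hc]
    refine sum_congr rfl fun a _ => ?_
    unfold e
    rw [← Complex.exp_add]
    congr 1
    push_cast
    ring
  rw [sum_congr rfl h0, sum_comm]
  have h2 : ∀ a ∈ (range c).filter (fun a => Nat.Coprime a c),
      ∑ u ∈ (range c).filter (fun u => Nat.Coprime u c),
        e ((a : ℝ) * ((-g : ℤ) : ℝ) / c) * e ((u : ℝ) * ((a * m : ℕ) : ℝ) / c) =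
      e ((a : ℝ) * ((-g : ℤ) : ℝ) / c) * ((cc c m : ℝ) : ℂ) := by
    intro a ha
    rw [mem_filter] at ha
    rw [← mul_sum, ← Pool.Agent.FG61.cc_exp c (a * m) hc]
    rw [cc_gcd (Nat.Coprime.gcd_mul_left_cancel_right m ha.2)]
  rw [sum_congr rfl h2, ← sum_mul, ← cc_int hc (-g), Int.natAbs_neg]
  push_cast
  ring

end Pool.Agent.LSPCE
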