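import Pool.Agent.Lib_helper84.LSP2.CE2
import Pool.Agent.Lib_helper41.LSP2.Defs2

/-!
# LSP2, module CE: the expansion of Ramanujan sums in primitive characters
-/

set_option autoImplicit false

namespace Pool.Agent.LSPCE

open Pool.Agent.LSP

open Pool.Agent.LEV Pool.Agent.LVB Pool.Agent.KSL
open Pool.Agent.FG61 (mu phi cc ff AA Lam)
open Pool.Agent.GA (Prm)
open Complex MeasureTheory Filter Topology UpperHalfPlane ModularGroup ProbabilityTheory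
open scoped MatrixGroups Modular ENNReal ModularForm ComplexConjugate ContDiff

theorem kap_eq (c : ℕ) (ψ : Σ q : ℕ, DirichletCharacter ℂ q) (m : ℕ) (g : ℤ) :
    kap c ψ m g = LSPCE.kp c ψ.2 m g := by
  unfold kap LSPCE.kp RR
  have h : (Finset.range c).filter (fun j => c.Coprime j) =
      (Finset.range c).filter (fun u => Nat.Coprime u c) := by
    ext u; simp only [Finset.mem_filter, Nat.coprime_comm]
  rw [h]
  push_cast
  rfl

/-- the expansion of Ramanujan sums in primitive characters -/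
theorem ram_chr_pr {R : ℕ} {s N : ℕ} (hs : ∀ c ∈ Finset.Icc 1 R, s.Coprime c)
    (hN : ∀ c ∈ Finset.Icc 1 R, N.Coprime c) (w : ℕ → ℝ) (m : ℕ) (g : ℤ) :
    ((∑ c ∈ Finset.Icc 1 R, w c * cc c (((s * m : ℕ) : ℤ) - g * N).natAbs : ℝ) : ℂ) =
      ∑ ψ ∈ Chs R, ψ.2 (s : ZMod ψ.1) * conj (ψ.2 (N : ZMod ψ.1)) *
        ∑ c ∈ (Finset.Icc 1 R).filter (fun c => ψ.1 ∣ c), (w c : ℂ) * kap c ψ m g := by
  classical
  unfold Chs
  push_cast
  have e1 : ∀ c ∈ Finset.Icc 1 R, (w c : ℂ) * ((cc c (((s * m : ℕ) : ℤ) - g * N).natAbs : ℝ) : ℂ) =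
      ∑ x ∈ c.divisors.sigma Var73.Pr, (w c : ℂ) * (x.2 (s : ZMod x.1) * conj (x.2 (N : ZMod x.1)) *
        kap c x m g) := by
    intro c hc
    rw [← Finset.mul_sum, show (((s * m : ℕ) : ℤ) - g * N) = ((s : ℤ) * m - g * N) by push_cast; rfl,
      LSPCE.cc_exp (Finset.mem_Icc.1 hc).1 (hs c hc) (hN c hc) m g]
    congr 1
    exact Finset.sum_congr rfl fun x _ => by rw [kap_eq]
  have e2 : ∑ c ∈ Finset.Icc 1 R, (w c : ℂ) * ((cc c (((s : ℤ) * (m : ℤ)) - g * N).natAbs : ℝ) : ℂ) =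
      ∑ c ∈ Finset.Icc 1 R, ∑ x ∈ c.divisors.sigma Var73.Pr, (w c : ℂ) *
        (x.2 (s : ZMod x.1) * conj (x.2 (N : ZMod x.1)) * kap c x m g) := by
    refine Finset.sum_congr rfl fun c hc => ?_
    rw [← e1 c hc]
    push_cast
    rfl
  rw [e2, Finset.sum_comm' (t' := (Finset.Icc 1 R).sigma Var73.Pr)
    (s' := fun x => (Finset.Icc 1 R).filter (fun c => x.1 ∣ c))]
  · refine Finset.sum_congr rfl fun x _ => ?_
    rw [Finset.mul_sum]
    refine Finset.sum_congr rfl fun c _ => ?_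
    ring
  · intro c x
    simp only [Finset.mem_Icc, Finset.mem_sigma, Nat.mem_divisors, Finset.mem_filter]
    constructor
    · rintro ⟨⟨h1, h2⟩, ⟨h3, h4⟩, h5⟩
      refine ⟨⟨⟨h1, h2⟩, h3⟩, ⟨?_, ?_⟩, h5⟩
      · exact Nat.pos_of_dvd_of_pos h3 (by omega)
      · exact (Nat.le_of_dvd (by omega) h3).trans h2
    · rintro ⟨⟨⟨h1, h2⟩, h3⟩, ⟨h4, h5⟩, h6⟩
      exact ⟨⟨h1, h2⟩, ⟨h3, by omega⟩, h6⟩

/-- the coefficient of the trivial character -/
theorem kap_one {c : ℕ} (hc : 1 ≤ c) (m : ℕ) (g : ℤ) :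
    kap c ⟨1, 1⟩ m g = ((cc c m * cc c g.natAbs / phi c : ℝ) : ℂ) := by
  rw [kap_eq, LSPCE.kp_one hc]

end Pool.Agent.LSPCE
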