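import Pool.Agent.Lib_helper84.LSP2.CE3
import Pool.Agent.Lib_helper31.LSP.Ker

/-!
# LSP2, module CE: freezing, one value of the multiplier
-/

set_option autoImplicit false

namespace Pool.Agent.LSPCE

open Pool.Agent.LSP

open Pool.Agent.FG61 (mu phi cc ff AA Lam)
open Pool.Agent.LSPO (GOK KK hyp)
open Finset

/-- the sum over the multiples of `d` -/
theorem sum_mult {E : Type*} [AddCommMonoid E] {d : ℕ} (hd : 1 ≤ d) (R : ℕ) (f : ℕ → E) :
    ∑ c ∈ (Icc 1 R).filter (fun c => d ∣ c), f c = ∑ j ∈ Icc 1 (R / d), f (d * j) := by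
  symm
  refine Finset.sum_bij (fun j _ => d * j) ?_ ?_ ?_ ?_
  · intro j hj
    rw [mem_Icc] at hj
    rw [mem_filter, mem_Icc]
    refine ⟨⟨Nat.mul_pos hd hj.1, ?_⟩, dvd_mul_right _ _⟩
    have := (Nat.le_div_iff_mul_le (by omega : 0 < d)).1 hj.2
    rw [mul_comm]; exact this
  · intro i _ j _ h
    exact Nat.eq_of_mul_eq_mul_left (by omega) h
  · intro c hc
    rw [mem_filter, mem_Icc] at hc
    obtain ⟨j, rfl⟩ := hc.2
    refine ⟨j, ?_, rfl⟩
    rw [mem_Icc, Nat.le_div_iff_mul_le (by omega : 0 < d)]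
    refine ⟨?_, by rw [mul_comm]; exact hc.1.2⟩
    rcases Nat.eq_zero_or_pos j with rfl | h
    · simp at hc
    · exact h
  · intro j _; rfl

theorem sum_inv_le_log {R S : ℕ} (h : R ≤ S) :
    ∑ m ∈ Icc 1 R, 1 / (m : ℝ) ≤ 1 + Real.log S := by
  have h0 : 0 ≤ Real.log (S : ℝ) := Real.log_natCast_nonneg S
  rcases Nat.eq_zero_or_pos R with rfl | hR
  · simp; linarith
  · refine (Pool.Agent.Var73.sum_inv_le R).trans ?_
    have : Real.log (R : ℝ) ≤ Real.log (S : ℝ) :=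
      Real.log_le_log (by exact_mod_cast hR) (by exact_mod_cast h)
    linarith

/-- the sum of `1/c` over the multiples of `d` -/
theorem sum_mult_inv {d : ℕ} (hd : 1 ≤ d) (R : ℕ) :
    ∑ c ∈ (Icc 1 R).filter (fun c => d ∣ c), 1 / (c : ℝ) ≤ (1 / (d : ℝ)) * (1 + Real.log R) := by
  rw [sum_mult hd]
  have h : ∀ j ∈ Icc 1 (R / d), 1 / ((d * j : ℕ) : ℝ) = (1 / (d : ℝ)) * (1 / (j : ℝ)) := by
    intro j _; push_cast; rw [one_div_mul_one_div]
  rw [sum_congr rfl h, ← mul_sum]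
  exact mul_le_mul_of_nonneg_left (sum_inv_le_log (Nat.div_le_self _ _)) (by positivity)

theorem cc_abs_le (c k : ℕ) : |cc c k| ≤ ∑ d ∈ (Nat.gcd c k).divisors, (d : ℝ) := by
  unfold Pool.Agent.FG61.cc
  refine (abs_sum_le_sum_abs _ _).trans (sum_le_sum fun d _ => ?_)
  rw [abs_mul, abs_of_nonneg (Nat.cast_nonneg d)]
  have h2 : |mu (c / d)| ≤ 1 := by
    unfold Pool.Agent.FG61.mu
    exact_mod_cast ArithmeticFunction.abs_moebius_le_one (n := c / d)
  calc (d : ℝ) * |mu (c / d)| ≤ d * 1 := mul_le_mul_of_nonneg_left h2 (Nat.cast_nonneg d)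
    _ = d := mul_one _

/-- the sum of the Ramanujan sums over the moduli -/
theorem cc_sum_le (R : ℕ) {k : ℕ} (hk : 1 ≤ k) :
    ∑ c ∈ Icc 1 R, (1 / (c : ℝ)) * |cc c k| ≤ tau k * (1 + Real.log R) := by
  have h1 : ∀ c ∈ Icc 1 R, (1 / (c : ℝ)) * |cc c k| ≤
      ∑ d ∈ k.divisors, if d ∣ c then (d : ℝ) * (1 / (c : ℝ)) else 0 := by
    intro c hc
    rw [mem_Icc] at hc
    rw [← sum_filter]
    have h2 : (Nat.gcd c k).divisors = k.divisors.filter (fun d => d ∣ c) := by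
      ext d
      rw [mem_filter, Nat.mem_divisors, Nat.mem_divisors, Nat.dvd_gcd_iff]
      constructor
      · rintro ⟨⟨h, h'⟩, _⟩
        exact ⟨⟨h', by omega⟩, h⟩
      · rintro ⟨⟨h, _⟩, h'⟩
        exact ⟨⟨h', h⟩, (Nat.gcd_pos_of_pos_right c hk).ne'⟩
    rw [← h2, ← sum_mul, mul_comm]
    exact mul_le_mul_of_nonneg_right (cc_abs_le c k) (by positivity)
  refine (sum_le_sum h1).trans ?_
  rw [sum_comm]
  have h3 : ∀ d ∈ k.divisors, ∑ c ∈ Icc 1 R, (if d ∣ c then (d : ℝ) * (1 / (c : ℝ)) else 0) ≤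
      1 + Real.log R := by
    intro d hd
    have hd1 : 1 ≤ d := Nat.pos_of_mem_divisors hd
    rw [← sum_filter, ← mul_sum]
    have hd0 : (0 : ℝ) < d := by exact_mod_cast hd1
    calc (d : ℝ) * ∑ c ∈ (Icc 1 R).filter (fun c => d ∣ c), 1 / (c : ℝ)
        ≤ d * ((1 / (d : ℝ)) * (1 + Real.log R)) :=
          mul_le_mul_of_nonneg_left (sum_mult_inv hd1 R) hd0.le
      _ = 1 + Real.log R := by field_simp
  refine (sum_le_sum h3).trans ?_
  rw [sum_const, nsmul_eq_mul]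
  exact le_refl _

/-- the kernel times the weight of the conductor in terms of `log |1 - u|` -/
theorem kk_wc {G : ℝ → ℝ} {om : ℝ} (hom : 0 < om) (Dl c : ℕ) {n : ℝ} (hn : 0 < n) (y : ℝ) :
    KK G om (y / n) * wc Dl c (n - y) =
      (1 / (c : ℝ)) * ∑ l ∈ Icc 1 (Dl / c), (1 / (l : ℝ)) *
        (KK G om (y / n) * hyp ((Real.log ((c * l : ℕ) : ℝ) - Real.log n / 2) -
          Real.log |1 - y / n| / 2)) := by
  unfold wc
  by_cases h : y / n = 1
  · have h1 : KK G om (y / n) = 0 := by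
      unfold Pool.Agent.LSPO.KK
      rw [h, Pool.Agent.LSPO.cl_eq_zero hom (by simpa using hom.le), mul_zero]
    rw [h1]
    simp
  · have h1 : Real.log |n - y| = Real.log n + Real.log |1 - y / n| := by
      have h2 : n - y = n * (1 - y / n) := by field_simp
      rw [h2, abs_mul, abs_of_pos hn, Real.log_mul hn.ne']
      rw [abs_ne_zero]
      intro h3
      apply h
      linarith
    rw [mul_left_comm, mul_sum]
    congr 1
    refine sum_congr rfl fun l _ => ?_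
    rw [h1, mul_left_comm]
    congr 3
    ring

theorem kk_lip {G : ℝ → ℝ} {U c₀ : ℝ} (hG : GOK G U c₀) {a om M : ℝ} (ha : 0 < a)
    (hom : 0 < om) (hM0 : 0 ≤ M)
    (hM : ∀ v : ℝ, a ≤ |v| → om / 2 ≤ |1 - v| → |G v| ≤ M) (Dl c : ℕ)
    {n n' y y' : ℝ} (hn : 0 < n) (hn' : 0 < n') (hu : a ≤ |y / n|)
    (hv : a ≤ |y' / n'|) (huv : |y / n - y' / n'| ≤ om / 2) :
    |KK G om (y / n) * wc Dl c (n - y) - KK G om (y' / n') * wc Dl c (n' - y')| ≤
      (1 / (c : ℝ)) * ((1 + Real.log Dl) * ((c₀ * (2 / a + 4 / om) ^ 3 + 2 * M / om) *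
        |y / n - y' / n'| + M * (|Real.log n - Real.log n'| / 2))) := by
  rw [kk_wc hom Dl c hn, kk_wc hom Dl c hn', ← mul_sub, ← sum_sub_distrib, abs_mul,
    abs_of_nonneg (by positivity : (0 : ℝ) ≤ 1 / (c : ℝ))]
  refine mul_le_mul_of_nonneg_left ?_ (by positivity)
  set B : ℝ := (c₀ * (2 / a + 4 / om) ^ 3 + 2 * M / om) *
        |y / n - y' / n'| + M * (|Real.log n - Real.log n'| / 2) with hBdef
  have hc₀ := hG.one_le'
  have hB0 : 0 ≤ B := by positivity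
  refine (abs_sum_le_sum_abs _ _).trans ?_
  have h1 : ∀ l ∈ Icc 1 (Dl / c), |(1 / (l : ℝ)) *
        (KK G om (y / n) * hyp ((Real.log ((c * l : ℕ) : ℝ) - Real.log n / 2) -
          Real.log |1 - y / n| / 2)) - (1 / (l : ℝ)) *
        (KK G om (y' / n') * hyp ((Real.log ((c * l : ℕ) : ℝ) - Real.log n' / 2) -
          Real.log |1 - y' / n'| / 2))| ≤ (1 / (l : ℝ)) * B := by
    intro l _
    rw [← mul_sub, abs_mul, abs_of_nonneg (by positivity : (0 : ℝ) ≤ 1 / (l : ℝ))]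
    refine mul_le_mul_of_nonneg_left ?_ (by positivity)
    refine (Pool.Agent.LSPO.Psi_lip hG ha hom hM0 hM (l := Real.log ((c * l : ℕ) : ℝ) - Real.log n / 2)
      (l' := Real.log ((c * l : ℕ) : ℝ) - Real.log n' / 2) hu hv huv).trans (le_of_eq ?_)
    rw [hBdef]
    congr 2
    rw [show Real.log ((c * l : ℕ) : ℝ) - Real.log n / 2 -
      (Real.log ((c * l : ℕ) : ℝ) - Real.log n' / 2) = -((Real.log n - Real.log n') / 2) by ring,
      abs_neg, abs_div, abs_of_pos (by norm_num : (0 : ℝ) < 2)]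
  refine (sum_le_sum h1).trans ?_
  rw [← sum_mul]
  exact mul_le_mul_of_nonneg_right (sum_inv_le_log (Nat.div_le_self _ _)) hB0

/-- the number of integers of bounded size -/
theorem card_int_le {S : Finset ℤ} (hS : ∀ g ∈ S, g ≠ 0) {Y : ℝ} (hY0 : 0 ≤ Y)
    (hY : ∀ g ∈ S, |(g : ℝ)| ≤ Y) : (S.card : ℝ) ≤ 2 * Y := by
  set n : ℕ := ⌊Y⌋₊ with hn
  have h1 : S ⊆ (Icc (-(n : ℤ)) (n : ℤ)).erase 0 := by
    intro g hg
    rw [mem_erase, mem_Icc]
    refine ⟨hS g hg, ?_⟩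
    rw [← abs_le]
    have h2 : g.natAbs ≤ n := by
      rw [hn, Nat.le_floor_iff hY0]
      have h3 := hY g hg
      rw [Nat.cast_natAbs, Int.cast_abs]
      exact h3
    rw [Int.abs_eq_natAbs]
    exact_mod_cast h2
  have h2 := card_le_card h1
  have h3 : ((Icc (-(n : ℤ)) (n : ℤ)).erase 0).card = 2 * n := by
    rw [card_erase_of_mem (by rw [mem_Icc]; constructor <;> omega), Int.card_Icc]
    omega
  rw [h3] at h2
  have h4 : (n : ℝ) ≤ Y := Nat.floor_le hY0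
  calc (S.card : ℝ) ≤ ((2 * n : ℕ) : ℝ) := by exact_mod_cast h2
    _ = 2 * (n : ℝ) := by push_cast; ring
    _ ≤ 2 * Y := by linarith

end Pool.Agent.LSPCE
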