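import Pool.Agent.Lib_helper84.LSP2.CE4

/-!
# LSP2, module CE: freezing, one value of the multiplier
-/

set_option autoImplicit false

namespace Pool.Agent.LSPCE

open Pool.Agent.LSP

open Pool.Agent.FG61 (mu phi cc ff AA Lam)
open Pool.Agent.LSPO (GOK KK hyp)
open Finset

theorem exp_near {x w : ℝ} (hx : |x| ≤ 2 * w) (hw : 8 * w ≤ 1) :
    |1 - Real.exp x| ≤ 4 * w ∧ 1 / 2 ≤ Real.exp x := by
  have h1 : |x| ≤ 1 := hx.trans (by linarith)
  have h2 := Real.abs_exp_sub_one_le h1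
  rw [abs_sub_comm] at h2
  have h3 : |1 - Real.exp x| ≤ 4 * w := h2.trans (by linarith)
  refine ⟨h3, ?_⟩
  have h4 := (abs_le.1 h3).2
  linarith

/-- one pair `(m, g)` -/
theorem freeze_mg {G : ℝ → ℝ} {U c₀ : ℝ} (hG : GOK G U c₀) {om a M w : ℝ}
    (hom : 0 < om) (ha : 0 < a) (hM0 : 0 ≤ M)
    (hM : ∀ v : ℝ, a ≤ |v| → om / 2 ≤ |1 - v| → |G v| ≤ M) (Dl R : ℕ) {s N m : ℕ} {σ Z : ℝ}
    (hs : 1 ≤ s) (hN : 1 ≤ N) (hm : 1 ≤ m) (hσ : 0 < σ) (hZ : 0 < Z) (hw : 8 * w ≤ 1)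
    (hsw : |Real.log s - Real.log σ| ≤ w) (hNw : |Real.log N - Real.log Z| ≤ w)
    (haN : 2 * a * (s * m) ≤ N) (hUw : 8 * U * w ≤ om / 2) {g : ℤ} (hg : g ≠ 0) :
    |KK G om ((g : ℝ) * N / ((s * m : ℕ) : ℝ)) *
        ∑ c ∈ Icc 1 R, wc Dl c (((s * m : ℕ) : ℝ) - g * N) * cc c (((s * m : ℕ) : ℤ) - g * N).natAbs -
      KK G om ((g : ℝ) * Z / (σ * m)) *
        ∑ c ∈ Icc 1 R, wc Dl c (σ * m - g * Z) * cc c (((s * m : ℕ) : ℤ) - g * N).natAbs| ≤
      if |(g : ℝ)| ≤ 2 * U * (s * m) / N then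
        tau (((s * m : ℕ) : ℤ) - g * N).natAbs * ((1 + Real.log R) * (1 + Real.log Dl) *
          ((c₀ * (2 / a + 4 / om) ^ 3 + 2 * M / om) * (8 * U * w) + M * (w / 2))) else 0 := by
  have hs0 : (0 : ℝ) < s := by exact_mod_cast hs
  have hN0 : (0 : ℝ) < N := by exact_mod_cast hN
  have hm0 : (0 : ℝ) < m := by exact_mod_cast hm
  have hU := hG.one_le
  have hc₀ := hG.one_le'
  have hw0 : 0 ≤ w := (abs_nonneg _).trans hsw
  have hlR : 0 ≤ Real.log (R : ℝ) := Real.log_natCast_nonneg R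
  have hlD : 0 ≤ Real.log (Dl : ℝ) := Real.log_natCast_nonneg Dl
  have hcast : ((s * m : ℕ) : ℝ) = (s : ℝ) * m := by push_cast; ring
  rw [hcast]
  have hsm : (0 : ℝ) < (s : ℝ) * m := mul_pos hs0 hm0
  have hσm : (0 : ℝ) < σ * m := mul_pos hσ hm0
  set u : ℝ := (g : ℝ) * N / ((s : ℝ) * m) with hu
  set u' : ℝ := (g : ℝ) * Z / (σ * m) with hu'
  set x : ℝ := (Real.log Z - Real.log N) + (Real.log s - Real.log σ) with hx
  have hx2 : |x| ≤ 2 * w := by
    rw [hx]
    refine (abs_add_le _ _).trans ?_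
    rw [abs_sub_comm (Real.log Z)]
    linarith
  obtain ⟨hr1, hr2⟩ := exp_near hx2 hw
  have hr : u' = u * Real.exp x := by
    rw [hx, Real.exp_add, Real.exp_sub, Real.exp_sub, Real.exp_log hZ, Real.exp_log hN0,
      Real.exp_log hs0, Real.exp_log hσ, hu, hu']
    field_simp
  have hg0 : (g : ℝ) ≠ 0 := by exact_mod_cast hg
  have hg1 : 1 ≤ |(g : ℝ)| := by
    have : (1 : ℤ) ≤ |g| := Int.one_le_abs hg
    have h2 : ((1 : ℤ) : ℝ) ≤ ((|g| : ℤ) : ℝ) := by exact_mod_cast this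
    simpa using h2
  have huabs : |u| = |(g : ℝ)| * N / (s * m) := by
    rw [hu, abs_div, abs_mul, abs_of_pos hN0, abs_of_pos hsm]
  have hu0 : 2 * a ≤ |u| := by
    rw [huabs, le_div_iff₀ hsm]
    calc 2 * a * (s * m) ≤ N := haN
      _ = 1 * N := (one_mul _).symm
      _ ≤ |(g : ℝ)| * N := mul_le_mul_of_nonneg_right hg1 hN0.le
  have hu'0 : |u| / 2 ≤ |u'| := by
    rw [hr, abs_mul, abs_of_pos (Real.exp_pos x)]
    have := abs_nonneg u
    nlinarith
  have huu : |u - u'| ≤ |u| * (4 * w) := by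
    rw [hr, show u - u * Real.exp x = u * (1 - Real.exp x) by ring, abs_mul]
    exact mul_le_mul_of_nonneg_left hr1 (abs_nonneg _)
  have hKz : ∀ v : ℝ, U < |v| → KK G om v = 0 := by
    intro v hv
    unfold Pool.Agent.LSPO.KK
    rw [hG.supp v hv, zero_mul]
  by_cases h2U : |(g : ℝ)| ≤ 2 * U * (s * m) / N
  · rw [if_pos h2U]
    have hu2 : |u| ≤ 2 * U := by
      rw [huabs, div_le_iff₀ hsm]
      rw [le_div_iff₀ hN0] at h2U
      linarith
    have huu2 : |u - u'| ≤ 8 * U * w := by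
      refine huu.trans ?_
      nlinarith
    have huu3 : |u - u'| ≤ om / 2 := huu2.trans hUw
    have hB0 : 0 ≤ (c₀ * (2 / a + 4 / om) ^ 3 + 2 * M / om) * (8 * U * w) + M * (w / 2) := by
      positivity
    by_cases hk : (((s * m : ℕ) : ℤ) - g * N) = 0
    · -- both kernels vanish
      have h1 : u = 1 := by
        have h2 : ((((s * m : ℕ) : ℤ) - g * N : ℤ) : ℝ) = 0 := by rw [hk]; simp
        push_cast at h2
        rw [hu, div_eq_one_iff_eq hsm.ne']
        linarith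
      have h3 : KK G om u = 0 := by
        unfold Pool.Agent.LSPO.KK
        rw [h1, Pool.Agent.LSPO.cl_eq_zero hom (by simpa using hom.le), mul_zero]
      have h4 : KK G om u' = 0 := by
        unfold Pool.Agent.LSPO.KK
        rw [Pool.Agent.LSPO.cl_eq_zero hom (by rw [← h1]; linarith), mul_zero]
      rw [h3, h4, zero_mul, zero_mul, sub_zero, abs_zero]
      have : 0 ≤ tau (((s * m : ℕ) : ℤ) - g * N).natAbs := by unfold tau; positivity
      positivity
    · have hk1 : 1 ≤ (((s * m : ℕ) : ℤ) - g * N).natAbs := Int.natAbs_pos.2 hk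
      rw [mul_sum, mul_sum, ← sum_sub_distrib]
      refine (abs_sum_le_sum_abs _ _).trans ?_
      have h5 : ∀ c ∈ Icc 1 R, |KK G om u * (wc Dl c ((s : ℝ) * m - g * N) *
            cc c (((s * m : ℕ) : ℤ) - g * N).natAbs) -
          KK G om u' * (wc Dl c (σ * m - g * Z) * cc c (((s * m : ℕ) : ℤ) - g * N).natAbs)| ≤
          ((1 / (c : ℝ)) * |cc c (((s * m : ℕ) : ℤ) - g * N).natAbs|) * ((1 + Real.log Dl) *
            ((c₀ * (2 / a + 4 / om) ^ 3 + 2 * M / om) * (8 * U * w) + M * (w / 2))) := by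
        intro c _
        rw [show KK G om u * (wc Dl c ((s : ℝ) * m - g * N) *
            cc c (((s * m : ℕ) : ℤ) - g * N).natAbs) -
          KK G om u' * (wc Dl c (σ * m - g * Z) * cc c (((s * m : ℕ) : ℤ) - g * N).natAbs) =
          (KK G om u * wc Dl c ((s : ℝ) * m - g * N) - KK G om u' * wc Dl c (σ * m - g * Z)) *
            cc c (((s * m : ℕ) : ℤ) - g * N).natAbs by ring, abs_mul]
        have h6 := kk_lip hG ha hom hM0 hM Dl c (n := (s : ℝ) * m) (n' := σ * m)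
          (y := (g : ℝ) * N) (y' := (g : ℝ) * Z) hsm hσm (by rw [← hu]; linarith)
          (by rw [← hu']; linarith) (by rw [← hu, ← hu']; exact huu3)
        rw [← hu, ← hu'] at h6
        have h7 : |Real.log ((s : ℝ) * m) - Real.log (σ * m)| ≤ w := by
          rw [Real.log_mul hs0.ne' hm0.ne', Real.log_mul hσ.ne' hm0.ne']
          rw [show Real.log (s : ℝ) + Real.log m - (Real.log σ + Real.log m) =
            Real.log s - Real.log σ by ring]
          exact hsw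
        have h8 : (c₀ * (2 / a + 4 / om) ^ 3 + 2 * M / om) * |u - u'| +
            M * (|Real.log ((s : ℝ) * m) - Real.log (σ * m)| / 2) ≤
            (c₀ * (2 / a + 4 / om) ^ 3 + 2 * M / om) * (8 * U * w) + M * (w / 2) := by
          refine add_le_add (mul_le_mul_of_nonneg_left huu2 (by positivity))
            (mul_le_mul_of_nonneg_left (by linarith) hM0)
        calc |KK G om u * wc Dl c ((s : ℝ) * m - g * N) - KK G om u' * wc Dl c (σ * m - g * Z)| *
              |cc c (((s * m : ℕ) : ℤ) - g * N).natAbs|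
            ≤ ((1 / (c : ℝ)) * ((1 + Real.log Dl) *
              ((c₀ * (2 / a + 4 / om) ^ 3 + 2 * M / om) * (8 * U * w) + M * (w / 2)))) *
              |cc c (((s * m : ℕ) : ℤ) - g * N).natAbs| := by
              refine mul_le_mul_of_nonneg_right (h6.trans ?_) (abs_nonneg _)
              refine mul_le_mul_of_nonneg_left (mul_le_mul_of_nonneg_left h8 (by linarith))
                (by positivity)
          _ = _ := by ring
      refine (sum_le_sum h5).trans ?_
      rw [← sum_mul]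
      calc (∑ c ∈ Icc 1 R, (1 / (c : ℝ)) * |cc c (((s * m : ℕ) : ℤ) - g * N).natAbs|) *
            ((1 + Real.log Dl) *
            ((c₀ * (2 / a + 4 / om) ^ 3 + 2 * M / om) * (8 * U * w) + M * (w / 2)))
          ≤ (tau (((s * m : ℕ) : ℤ) - g * N).natAbs * (1 + Real.log R)) * ((1 + Real.log Dl) *
            ((c₀ * (2 / a + 4 / om) ^ 3 + 2 * M / om) * (8 * U * w) + M * (w / 2))) :=
            mul_le_mul_of_nonneg_right (cc_sum_le R hk1) (mul_nonneg (by linarith) hB0)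
        _ = _ := by ring
  · rw [if_neg h2U]
    have hu2 : 2 * U < |u| := by
      rw [huabs, lt_div_iff₀ hsm]
      rw [not_le, div_lt_iff₀ hN0] at h2U
      linarith
    rw [hKz u (by linarith), hKz u' (by linarith), zero_mul, zero_mul, sub_zero, abs_zero]

/-- the inner sum of the off-diagonal of level `N` at the multiplier `s` -/
noncomputable def Ts (C : ℕ → ℝ) (G : ℝ → ℝ) (om : ℝ) (Q : ℕ) (S : Finset ℤ) (Dl R s N : ℕ)
    (σ Z : ℝ) : ℝ :=
  4 * Real.pi * ∑ m ∈ Icc 1 Q, C m * ∑ g ∈ S, tau g.natAbs * (KK G om ((g : ℝ) * Z / (σ * m)) *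
    ∑ c ∈ Icc 1 R, wc Dl c (σ * m - g * Z) * cc c (((s * m : ℕ) : ℤ) - g * N).natAbs)

theorem freeze_one {G : ℝ → ℝ} {U c₀ : ℝ} (hG : GOK G U c₀) {om a M T K w : ℝ}
    (hom : 0 < om) (ha : 0 < a) (hM0 : 0 ≤ M)
    (hM : ∀ v : ℝ, a ≤ |v| → om / 2 ≤ |1 - v| → |G v| ≤ M) (Q Dl R : ℕ) {Q' s N : ℕ} {σ Z : ℝ}
    {S : Finset ℤ} (hS : ∀ g ∈ S, g ≠ 0) {C : ℕ → ℝ}
    (hs : 1 ≤ s) (hN : 1 ≤ N) (hσ : 0 < σ) (hZ : 0 < Z) (hw : 8 * w ≤ 1)
    (hsw : |Real.log s - Real.log σ| ≤ w) (hNw : |Real.log N - Real.log Z| ≤ w)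
    (hK : 0 ≤ K) (hC : ∀ n, |C n| ≤ K / n) (hQ : ∀ n, C n ≠ 0 → n ≤ Q')
    (haN : 2 * a * (s * Q') ≤ N) (hUw : 8 * U * w ≤ om / 2) (hT0 : 0 ≤ T)
    (hT : ∀ n : ℕ, (n : ℝ) ≤ (1 + 2 * U) * (s * Q') → tau n ≤ T) :
    |Ts C G om Q S Dl R s N s N - Ts C G om Q S Dl R s N σ Z| ≤
      4 * Real.pi * (K * (4 * U * (s * Q') / N)) * (T ^ 2 * ((1 + Real.log R) * (1 + Real.log Dl) *
          ((c₀ * (2 / a + 4 / om) ^ 3 + 2 * M / om) * (8 * U * w) + M * (w / 2)))) := by
  have hs0 : (0 : ℝ) < s := by exact_mod_cast hs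
  have hN0 : (0 : ℝ) < N := by exact_mod_cast hN
  have hN1 : (1 : ℝ) ≤ N := by exact_mod_cast hN
  have hU := hG.one_le
  have hc₀ := hG.one_le'
  have hw0 : 0 ≤ w := (abs_nonneg _).trans hsw
  have hlR : 0 ≤ Real.log (R : ℝ) := Real.log_natCast_nonneg R
  have hlD : 0 ≤ Real.log (Dl : ℝ) := Real.log_natCast_nonneg Dl
  set B : ℝ := (1 + Real.log R) * (1 + Real.log Dl) *
          ((c₀ * (2 / a + 4 / om) ^ 3 + 2 * M / om) * (8 * U * w) + M * (w / 2)) with hB
  have hB0 : 0 ≤ B := by positivity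
  unfold Ts
  rw [← mul_sub, ← sum_sub_distrib, abs_mul, abs_of_pos (by positivity : 0 < 4 * Real.pi),
    mul_assoc (4 * Real.pi) (K * (4 * U * (s * Q') / N))]
  refine mul_le_mul_of_nonneg_left ?_ (by positivity)
  refine (abs_sum_le_sum_abs _ _).trans ?_
  have h1 : ∀ m ∈ Icc 1 Q, |C m * ∑ g ∈ S, tau g.natAbs * (KK G om ((g : ℝ) * N / (s * m)) *
        ∑ c ∈ Icc 1 R, wc Dl c ((s : ℝ) * m - g * N) * cc c (((s * m : ℕ) : ℤ) - g * N).natAbs) -
      C m * ∑ g ∈ S, tau g.natAbs * (KK G om ((g : ℝ) * Z / (σ * m)) *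
        ∑ c ∈ Icc 1 R, wc Dl c (σ * m - g * Z) * cc c (((s * m : ℕ) : ℤ) - g * N).natAbs)| ≤
      if m ≤ Q' then (4 * U * s / N) * K * (T ^ 2 * B) else 0 := by
    intro m hm
    rw [mem_Icc] at hm
    have hm0 : (0 : ℝ) < m := by exact_mod_cast hm.1
    by_cases hCm : C m = 0
    · rw [hCm, zero_mul, zero_mul, sub_zero, abs_zero]
      split_ifs
      · positivity
      · exact le_refl _
    have hmQ := hQ m hCm
    have hmQ' : (m : ℝ) ≤ Q' := by exact_mod_cast hmQ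
    rw [if_pos hmQ, ← mul_sub, ← sum_sub_distrib, abs_mul]
    have h2 : |∑ g ∈ S, (tau g.natAbs * (KK G om ((g : ℝ) * N / (s * m)) *
        ∑ c ∈ Icc 1 R, wc Dl c ((s : ℝ) * m - g * N) * cc c (((s * m : ℕ) : ℤ) - g * N).natAbs) -
        tau g.natAbs * (KK G om ((g : ℝ) * Z / (σ * m)) *
        ∑ c ∈ Icc 1 R, wc Dl c (σ * m - g * Z) * cc c (((s * m : ℕ) : ℤ) - g * N).natAbs))| ≤
        2 * (2 * U * (s * m) / N) * (T ^ 2 * B) := by
      refine (abs_sum_le_sum_abs _ _).trans ?_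
      have h3 : ∀ g ∈ S, |tau g.natAbs * (KK G om ((g : ℝ) * N / (s * m)) *
        ∑ c ∈ Icc 1 R, wc Dl c ((s : ℝ) * m - g * N) * cc c (((s * m : ℕ) : ℤ) - g * N).natAbs) -
        tau g.natAbs * (KK G om ((g : ℝ) * Z / (σ * m)) *
        ∑ c ∈ Icc 1 R, wc Dl c (σ * m - g * Z) * cc c (((s * m : ℕ) : ℤ) - g * N).natAbs)| ≤
          if |(g : ℝ)| ≤ 2 * U * (s * m) / N then T ^ 2 * B else 0 := by
        intro g hg
        rw [← mul_sub, abs_mul]
        have htg0 : 0 ≤ tau g.natAbs := by unfold tau; positivity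
        rw [abs_of_nonneg htg0]
        have h4 := freeze_mg hG hom ha hM0 hM Dl R (s := s) (N := N) (m := m) hs hN hm.1 hσ hZ hw
          hsw hNw (by
            refine le_trans ?_ haN
            exact mul_le_mul_of_nonneg_left (mul_le_mul_of_nonneg_left hmQ' hs0.le) (by linarith))
          hUw (hS g hg)
        rw [show ((s * m : ℕ) : ℝ) = (s : ℝ) * m by push_cast; ring] at h4
        refine (mul_le_mul_of_nonneg_left h4 htg0).trans ?_
        by_cases h5 : |(g : ℝ)| ≤ 2 * U * (s * m) / N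
        · rw [if_pos h5, if_pos h5]
          have h6 : |(g : ℝ)| * N ≤ 2 * U * (s * m) := by rwa [le_div_iff₀ hN0] at h5
          have hsmQ : (s : ℝ) * m ≤ s * Q' := mul_le_mul_of_nonneg_left hmQ' hs0.le
          have hsm0 : (0 : ℝ) < s * m := mul_pos hs0 hm0
          have h11 : (1 + 2 * U) * ((s : ℝ) * m) ≤ (1 + 2 * U) * (s * Q') :=
            mul_le_mul_of_nonneg_left hsmQ (by linarith)
          have h7 : tau g.natAbs ≤ T := by
            refine hT _ ?_
            rw [Nat.cast_natAbs, Int.cast_abs]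
            have h8 : |(g : ℝ)| * 1 ≤ |(g : ℝ)| * N :=
              mul_le_mul_of_nonneg_left hN1 (abs_nonneg _)
            linarith
          have h9 : tau (((s * m : ℕ) : ℤ) - g * N).natAbs ≤ T := by
            refine hT _ ?_
            rw [Nat.cast_natAbs, Int.cast_abs]
            push_cast
            refine (abs_sub _ _).trans ?_
            rw [abs_mul (g : ℝ), abs_of_pos hsm0, abs_of_pos hN0]
            linarith
          have ht0 : 0 ≤ tau (((s * m : ℕ) : ℤ) - g * N).natAbs := by unfold tau; positivity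
          calc tau g.natAbs * (tau (((s * m : ℕ) : ℤ) - g * N).natAbs * B)
              ≤ T * (T * B) := by
                refine mul_le_mul h7 (mul_le_mul_of_nonneg_right h9 hB0) (mul_nonneg ht0 hB0) hT0
            _ = T ^ 2 * B := by ring
        · rw [if_neg h5, if_neg h5, mul_zero]
      refine (sum_le_sum h3).trans ?_
      rw [← sum_filter, sum_const, nsmul_eq_mul]
      refine mul_le_mul_of_nonneg_right ?_ (by positivity)
      refine card_int_le (fun g hg => hS g (mem_filter.1 hg).1) (by positivity)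
        (fun g hg => (mem_filter.1 hg).2)
    calc |C m| * _ ≤ (K / m) * (2 * (2 * U * (s * m) / N) * (T ^ 2 * B)) :=
          mul_le_mul (hC m) h2 (abs_nonneg _) (by positivity)
      _ = (4 * U * s / N) * K * (T ^ 2 * B) := by
          field_simp
          ring
  refine (sum_le_sum h1).trans ?_
  rw [← sum_filter, sum_const, nsmul_eq_mul]
  have h10 : (((Icc 1 Q).filter (fun m => m ≤ Q')).card : ℝ) ≤ Q' := by
    have : ((Icc 1 Q).filter (fun m => m ≤ Q')).card ≤ (Icc 1 Q').card := by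
      refine card_le_card fun m hm => ?_
      rw [mem_filter, mem_Icc] at hm
      rw [mem_Icc]
      exact ⟨hm.1.1, hm.2⟩
    rw [Nat.card_Icc] at this
    exact_mod_cast (show ((Icc 1 Q).filter (fun m => m ≤ Q')).card ≤ Q' by omega)
  calc _ ≤ (Q' : ℝ) * ((4 * U * s / N) * K * (T ^ 2 * B)) :=
        mul_le_mul_of_nonneg_right h10 (by positivity)
    _ = _ := by ring

end Pool.Agent.LSPCE
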