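import Pool.Agent.Lib_helper84.LSP2.CE5

/-!
# LSP2, module CE: expansion of the frozen sums, sums over the multipliers
-/

set_option autoImplicit false

namespace Pool.Agent.LSPCE

open Pool.Agent.LSP

open Pool.Agent.FG61 (mu phi cc ff AA Lam)
open Pool.Agent.LSPO (GOK KK hyp)
open Finset
open scoped ComplexConjugate

/-- the frozen sum in terms of the kernels of the characters -/
theorem ts_expand (C : ℕ → ℝ) (G : ℝ → ℝ) (om : ℝ) (Q : ℕ) (S : Finset ℤ) (Dl : ℕ) {R s N : ℕ}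
    (hs : ∀ c ∈ Icc 1 R, s.Coprime c) (hN : ∀ c ∈ Icc 1 R, N.Coprime c) (σ Z : ℝ) :
    ((Ts C G om Q S Dl R s N σ Z : ℝ) : ℂ) = ∑ ψ ∈ Chs R,
      ψ.2 (s : ZMod ψ.1) * conj (ψ.2 (N : ZMod ψ.1)) * PsiK C G om Q S Dl R ψ σ Z := by
  unfold Ts PsiK
  push_cast
  have h1 : ∀ ψ ∈ Chs R, ψ.2 (s : ZMod ψ.1) * conj (ψ.2 (N : ZMod ψ.1)) *
      (4 * (Real.pi : ℂ) * ∑ m ∈ Icc 1 Q, (C m : ℂ) * ∑ g ∈ S,
        ((tau g.natAbs : ℂ) * (KK G om ((g : ℝ) * Z / (σ * m)) : ℂ)) *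
          ∑ c ∈ (Icc 1 R).filter (fun c => ψ.1 ∣ c), (wc Dl c (σ * m - g * Z) : ℂ) * kap c ψ m g) =
      4 * (Real.pi : ℂ) * ∑ m ∈ Icc 1 Q, (C m : ℂ) * ∑ g ∈ S,
        ((tau g.natAbs : ℂ) * (KK G om ((g : ℝ) * Z / (σ * m)) : ℂ)) *
          (ψ.2 (s : ZMod ψ.1) * conj (ψ.2 (N : ZMod ψ.1)) *
            ∑ c ∈ (Icc 1 R).filter (fun c => ψ.1 ∣ c), (wc Dl c (σ * m - g * Z) : ℂ) * kap c ψ m g) := by
    intro ψ _
    rw [mul_left_comm]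
    congr 1
    rw [mul_sum]
    refine sum_congr rfl fun m _ => ?_
    rw [mul_left_comm]
    congr 1
    rw [mul_sum]
    refine sum_congr rfl fun g _ => ?_
    rw [mul_left_comm]
  rw [sum_congr rfl h1, ← mul_sum]
  congr 1
  rw [sum_comm]
  refine sum_congr rfl fun m _ => ?_
  rw [← mul_sum]
  congr 1
  rw [sum_comm]
  refine sum_congr rfl fun g _ => ?_
  rw [← mul_sum, ← ram_chr_pr hs hN (fun c => wc Dl c (σ * m - g * Z)) m g]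
  push_cast
  ring

/-- sums over the multiples of the primes -/
theorem sum_cy {P : Finset ℕ} (hP : ∀ p ∈ P, 1 ≤ p) (b : ℕ → ℝ) {C : ℕ → ℝ} {Q Q' : ℕ}
    (hQ : ∀ n, C n ≠ 0 → n ≤ Q') (hPQ : ∀ p ∈ P, p * Q' ≤ Q) (Φ : ℕ → ℝ) :
    ∑ n ∈ Icc 1 Q, CY P b C n * Φ n =
      ∑ p ∈ P, b p / p * ∑ m ∈ Icc 1 Q, C m * Φ (p * m) := by
  unfold CY
  have h1 : ∀ n ∈ Icc 1 Q, (∑ p ∈ P, if p ∣ n then b p / p * C (n / p) else 0) * Φ n =
      ∑ p ∈ P, if p ∣ n then b p / p * (C (n / p) * Φ n) else 0 := by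
    intro n _
    rw [sum_mul]
    refine sum_congr rfl fun p _ => ?_
    split_ifs
    · ring
    · simp
  rw [sum_congr rfl h1, sum_comm]
  refine sum_congr rfl fun p hp => ?_
  have hp1 := hP p hp
  rw [← sum_filter, ← mul_sum, sum_mult hp1]
  congr 1
  have h2 : Icc 1 (Q / p) ⊆ Icc 1 Q := Icc_subset_Icc_right (Nat.div_le_self _ _)
  rw [← sum_subset h2]
  · refine sum_congr rfl fun j _ => ?_
    rw [Nat.mul_div_cancel_left j (by omega)]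
  · intro m hm hm'
    have h3 : C m = 0 := by
      by_contra h
      apply hm'
      rw [mem_Icc] at hm ⊢
      refine ⟨hm.1, ?_⟩
      rw [Nat.le_div_iff_mul_le (by omega), mul_comm]
      exact (Nat.mul_le_mul_left p (hQ m h)).trans (hPQ p hp)
    rw [h3, zero_mul]

/-- the support of the coefficients of a product -/
theorem cy_supp {P : Finset ℕ} {Pm : ℕ} (hP : ∀ p ∈ P, p ≤ Pm) (b : ℕ → ℝ) {C : ℕ → ℝ} {Q' : ℕ}
    (hQ : ∀ n, C n ≠ 0 → n ≤ Q') : ∀ n, CY P b C n ≠ 0 → n ≤ Pm * Q' := by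
  intro n hn
  unfold CY at hn
  obtain ⟨p, hp, h1⟩ := exists_ne_zero_of_sum_ne_zero hn
  by_cases h2 : p ∣ n
  · rw [if_pos h2] at h1
    have h3 : C (n / p) ≠ 0 := right_ne_zero_of_mul h1
    have h4 := hQ _ h3
    calc n = p * (n / p) := (Nat.mul_div_cancel' h2).symm
      _ ≤ Pm * Q' := Nat.mul_le_mul (hP p hp) h4
  · rw [if_neg h2] at h1
    exact absurd rfl h1

/-- the part of small conductor at a multiplier -/
theorem smg_cy {P : Finset ℕ} (hP : ∀ p ∈ P, 1 ≤ p) (b : ℕ → ℝ) {C : ℕ → ℝ} {Q Q' : ℕ}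
    (hQ : ∀ n, C n ≠ 0 → n ≤ Q') (hPQ : ∀ p ∈ P, p * Q' ≤ Q) (G : ℝ → ℝ) (om : ℝ) (S : Finset ℤ)
    (Dl R N : ℕ) :
    SMg (CY P b C) G om Q S Dl R N = ∑ p ∈ P, b p / p * Ts C G om Q S Dl R p N p N := by
  unfold SMg Ts
  rw [sum_cy hP b hQ hPQ (fun n => ∑ g ∈ S, tau g.natAbs * (KK G om ((g : ℝ) * N / n) *
      ∑ c ∈ Icc 1 R, wc Dl c ((n : ℝ) - g * N) * cc c ((n : ℤ) - g * N).natAbs)), mul_sum]
  refine sum_congr rfl fun p _ => ?_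
  rw [mul_left_comm]
  simp only [Nat.cast_mul]

/-- the same with two multipliers -/
theorem smg_cy2 {P : Finset ℕ} {Pm : ℕ} (hP : ∀ p ∈ P, 1 ≤ p) (hPm : ∀ p ∈ P, p ≤ Pm) (b : ℕ → ℝ)
    {C : ℕ → ℝ} {Q Q' : ℕ} (hQ : ∀ n, C n ≠ 0 → n ≤ Q') (hPQ : Pm * (Pm * Q') ≤ Q)
    (G : ℝ → ℝ) (om : ℝ) (S : Finset ℤ) (Dl R N : ℕ) :
    SMg (CY P b (CY P b C)) G om Q S Dl R N =
      ∑ p ∈ P, ∑ q ∈ P, b p / p * (b q / q) * Ts C G om Q S Dl R (p * q) N ((p * q : ℕ) : ℝ) N := by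
  have h0 : ∀ p ∈ P, p * Q' ≤ Q := by
    intro p hp
    have h1 := hPm p hp
    have h2 := hP p hp
    have h3 : Q' ≤ Pm * Q' := Nat.le_mul_of_pos_left Q' (by omega)
    calc p * Q' ≤ Pm * (Pm * Q') := Nat.mul_le_mul h1 h3
      _ ≤ Q := hPQ
  unfold SMg Ts
  rw [sum_cy hP b (cy_supp hPm b hQ) (fun p hp => (Nat.mul_le_mul_right _ (hPm p hp)).trans hPQ)
    (fun n => ∑ g ∈ S, tau g.natAbs * (KK G om ((g : ℝ) * N / n) *
      ∑ c ∈ Icc 1 R, wc Dl c ((n : ℝ) - g * N) * cc c ((n : ℤ) - g * N).natAbs)), mul_sum]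
  refine sum_congr rfl fun p _ => ?_
  rw [sum_cy hP b hQ h0 (fun m => (fun n : ℕ => ∑ g ∈ S, tau g.natAbs * (KK G om ((g : ℝ) * N / n) *
      ∑ c ∈ Icc 1 R, wc Dl c ((n : ℝ) - g * N) * cc c ((n : ℤ) - g * N).natAbs)) (p * m)), mul_sum,
      mul_sum]
  refine sum_congr rfl fun q _ => ?_
  rw [mul_left_comm, mul_left_comm (4 * Real.pi), ← mul_assoc (b p / p)]
  simp only [← mul_assoc, Nat.cast_mul]

/-- freezing and expansion for a family of multipliers -/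
theorem freeze_fam {ι : Type*} (I : Finset ι) (W : ι → ℝ) (s : ι → ℕ) (σ : ι → ℝ)
    {C : ℕ → ℝ} {G : ℝ → ℝ} {om : ℝ} {Q : ℕ} {S : Finset ℤ} {Dl R N : ℕ} {Z er : ℝ}
    (hs : ∀ i ∈ I, W i ≠ 0 → ∀ c ∈ Icc 1 R, (s i).Coprime c)
    (hN : ∀ c ∈ Icc 1 R, N.Coprime c) (hW : ∑ i ∈ I, |W i| ≤ 1) (her : 0 ≤ er)
    (he : ∀ i ∈ I, W i ≠ 0 →
      |Ts C G om Q S Dl R (s i) N (s i) N - Ts C G om Q S Dl R (s i) N (σ i) Z| ≤ er) :
    |∑ i ∈ I, W i * Ts C G om Q S Dl R (s i) N (s i) N -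
      (∑ ψ ∈ Chs R, conj (ψ.2 (N : ZMod ψ.1)) * ∑ i ∈ I, (W i : ℂ) * ψ.2 ((s i : ℕ) : ZMod ψ.1) *
        PsiK C G om Q S Dl R ψ (σ i) Z).re| ≤ er := by
  have h1 : ∑ ψ ∈ Chs R, conj (ψ.2 (N : ZMod ψ.1)) * ∑ i ∈ I, (W i : ℂ) *
      ψ.2 ((s i : ℕ) : ZMod ψ.1) * PsiK C G om Q S Dl R ψ (σ i) Z =
      ∑ i ∈ I, (W i : ℂ) * ((Ts C G om Q S Dl R (s i) N (σ i) Z : ℝ) : ℂ) := by
    have h2 : ∀ ψ ∈ Chs R, conj (ψ.2 (N : ZMod ψ.1)) * ∑ i ∈ I, (W i : ℂ) *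
      ψ.2 ((s i : ℕ) : ZMod ψ.1) * PsiK C G om Q S Dl R ψ (σ i) Z =
        ∑ i ∈ I, (W i : ℂ) * (ψ.2 ((s i : ℕ) : ZMod ψ.1) * conj (ψ.2 (N : ZMod ψ.1)) *
          PsiK C G om Q S Dl R ψ (σ i) Z) := by
      intro ψ _
      rw [mul_sum]
      exact sum_congr rfl fun i _ => by ring
    rw [sum_congr rfl h2, sum_comm]
    refine sum_congr rfl fun i hi => ?_
    rw [← mul_sum]
    by_cases hWi : W i = 0
    · rw [hWi]; simp
    · rw [ts_expand C G om Q S Dl (hs i hi hWi) hN]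
  rw [h1]
  have h3 : (∑ i ∈ I, (W i : ℂ) * ((Ts C G om Q S Dl R (s i) N (σ i) Z : ℝ) : ℂ)).re =
      ∑ i ∈ I, W i * Ts C G om Q S Dl R (s i) N (σ i) Z := by
    rw [Complex.re_sum]
    refine sum_congr rfl fun i _ => ?_
    rw [← Complex.ofReal_mul, Complex.ofReal_re]
  rw [h3, ← sum_sub_distrib]
  refine (abs_sum_le_sum_abs _ _).trans ?_
  calc ∑ i ∈ I, |W i * Ts C G om Q S Dl R (s i) N (s i) N - W i * Ts C G om Q S Dl R (s i) N (σ i) Z|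
      ≤ ∑ i ∈ I, |W i| * er := by
        refine sum_le_sum fun i hi => ?_
        rw [← mul_sub, abs_mul]
        by_cases hWi : W i = 0
        · rw [hWi]; simp
        · exact mul_le_mul_of_nonneg_left (he i hi hWi) (abs_nonneg _)
    _ = (∑ i ∈ I, |W i|) * er := by rw [sum_mul]
    _ ≤ 1 * er := mul_le_mul_of_nonneg_right hW her
    _ = er := one_mul _

end Pool.Agent.LSPCE
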