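import Pool.Agent.Lib_helper84.LSP2.CE6
import Pool.Agent.Lib_helper15.LSPF.TAU

/-!
# LSP2, module CE: the parameters
-/

set_option autoImplicit false

namespace Pool.Agent.LSPCE

open Pool.Agent.LSP

open Pool.Agent.FG61 (mu phi cc ff AA Lam)
open Pool.Agent.LSPO (GOK KK hyp)
open Finset Filter Topology
open scoped ComplexConjugate

theorem ev_log_sq (A : ℝ) {κ : ℝ} (hκ : 0 < κ) :
    ∀ᶠ x : ℝ in atTop, A * (1 + Real.log x) ^ 2 ≤ x ^ κ := by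
  have h1 : ∀ᶠ x : ℝ in atTop, Real.log x ≤ x ^ (κ / 4) := by
    have h := (isLittleO_log_rpow_atTop (by positivity : 0 < κ / 4)).bound
      (by norm_num : (0 : ℝ) < 1)
    filter_upwards [h, eventually_ge_atTop 1] with x hx hx1
    rw [Real.norm_of_nonneg (Real.log_nonneg hx1), one_mul,
      Real.norm_of_nonneg (by positivity)] at hx
    exact hx
  have h2 : ∀ᶠ x : ℝ in atTop, 4 * |A| ≤ x ^ (κ / 2) :=
    (tendsto_rpow_atTop (by positivity : 0 < κ / 2)).eventually_ge_atTop _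
  filter_upwards [h1, h2, eventually_ge_atTop 1] with x hx1 hx2 hx3
  have h3 : 1 ≤ x ^ (κ / 4) := Real.one_le_rpow hx3 (by positivity)
  have h4 : x ^ κ = x ^ (κ / 2) * (x ^ (κ / 4)) ^ 2 := by
    rw [← Real.rpow_natCast, ← Real.rpow_mul (by linarith), ← Real.rpow_add (by linarith)]
    congr 1
    push_cast
    ring
  have h5 : 0 ≤ Real.log x := Real.log_nonneg hx3
  have h6 : (1 + Real.log x) ^ 2 ≤ 4 * (x ^ (κ / 4)) ^ 2 := by
    nlinarith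
  calc A * (1 + Real.log x) ^ 2 ≤ |A| * (1 + Real.log x) ^ 2 :=
        mul_le_mul_of_nonneg_right (le_abs_self A) (by positivity)
    _ ≤ |A| * (4 * (x ^ (κ / 4)) ^ 2) := mul_le_mul_of_nonneg_left h6 (abs_nonneg _)
    _ = (4 * |A|) * (x ^ (κ / 4)) ^ 2 := by ring
    _ ≤ x ^ (κ / 2) * (x ^ (κ / 4)) ^ 2 := mul_le_mul_of_nonneg_right hx2 (by positivity)
    _ = x ^ κ := h4.symm

/-- the powers of `X ^ κ` -/
theorem pw {X κ : ℝ} (hX : 0 < X) (n : ℕ) : X ^ (n * κ) = (X ^ κ) ^ n := by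
  rw [← Real.rpow_natCast, ← Real.rpow_mul hX.le]
  congr 1
  ring

theorem pwn {X κ : ℝ} (hX : 0 < X) (n : ℕ) : X ^ (-(n * κ)) = ((X ^ κ) ^ n)⁻¹ := by
  rw [Real.rpow_neg hX.le, pw hX]

/-- the constants of the problem -/
theorem ce_par (U c₀ A : ℝ) (hU : 1 ≤ U) (hc : 1 ≤ c₀) (B₀ : ℕ) {κ : ℝ} (h0 : 0 < κ)
    (h1 : 1000 * κ ≤ 1) : ∃ X₀ : ℕ, ∀ X : ℕ, X₀ ≤ X →
      (2 : ℝ) ≤ X ∧ A ≤ (X : ℝ) ^ κ ∧ A ≤ (X : ℝ) ^ (κ / 10) ∧
      (1 + Real.log (R2 κ X)) ^ 3 * (1 + Real.log ((2 * (B₀ + 1) * E2 κ X : ℕ) : ℝ)) ≤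
        (X : ℝ) ^ (κ / 10) ∧
      c₀ * (1 - Real.log (((X : ℝ) ^ κ) ^ 6)⁻¹ - Real.log (om2 κ X / 2) + 2 * Real.log (1 + U)) ≤
        (X : ℝ) ^ (κ / 10) ∧
      (∃ T : ℝ, 0 ≤ T ∧ T ^ 2 ≤ (X : ℝ) ^ (κ / 10) ∧
        ∀ n : ℕ, (n : ℝ) ≤ (1 + 2 * U) * (8 * (X : ℝ) ^ (1 + 5 * κ)) → tau n ≤ T) ∧
      ((R2 κ X : ℕ) : ℝ) ≤ (X : ℝ) ^ (200 * κ) ∧
      (X : ℝ) ^ (200 * κ) < X / 4 ∧
      4 * (X : ℝ) ^ (1 + 5 * κ) ≤ ((E2 κ X ^ 2 : ℕ) : ℝ) := by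
  obtain ⟨Ct, hCt, htau⟩ := Pool.Agent.LSPP.tau_le_pr (ε := κ / 100) (by positivity)
  have hlU : 0 ≤ Real.log (1 + U) := Real.log_nonneg (by linarith)
  have hlB : 0 ≤ Real.log (2 * ((B₀ : ℝ) + 1)) := Real.log_nonneg (by
    have : (0 : ℝ) ≤ B₀ := Nat.cast_nonneg _
    linarith)
  have e1 : ∀ᶠ x : ℝ in atTop, |A| + 16 ≤ x ^ (κ / 10) :=
    (tendsto_rpow_atTop (by positivity : 0 < κ / 10)).eventually_ge_atTop _
  have e2 := ev_log_sq (1 + Real.log (2 * ((B₀ : ℝ) + 1))) (κ := κ / 20) (by positivity)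
  have e3 := ev_log_sq (c₀ * (2 + 2 * Real.log (1 + U))) (κ := κ / 10) (by positivity)
  have e2' := ev_log_sq 1 (κ := κ / 20) (by positivity)
  have e4 : ∀ᶠ x : ℝ in atTop, Ct ^ 2 * ((1 + 2 * U) * 8) ^ (κ / 50) ≤ x ^ (κ / 50) :=
    (tendsto_rpow_atTop (by positivity : 0 < κ / 50)).eventually_ge_atTop _
  have e5 : ∀ᶠ x : ℝ in atTop, 5 ≤ x ^ (4 / 5 : ℝ) :=
    (tendsto_rpow_atTop (by norm_num : (0 : ℝ) < 4 / 5)).eventually_ge_atTop _
  have e6 : ∀ᶠ x : ℝ in atTop, (2 : ℝ) ≤ x := eventually_ge_atTop 2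
  have hall := tendsto_natCast_atTop_atTop.eventually
    ((((e1.and e2).and (e3.and e4)).and (e5.and e6)).and e2')
  obtain ⟨X₀, hX₀⟩ := eventually_atTop.1 hall
  refine ⟨X₀, fun X hX => ?_⟩
  obtain ⟨⟨⟨⟨f1, f2⟩, f3, f4⟩, f5, f6⟩, f2'⟩ := hX₀ X hX
  have hX0 : (0 : ℝ) < X := by linarith
  have hX1 : (1 : ℝ) ≤ X := by linarith
  have hlX : 0 ≤ Real.log (X : ℝ) := Real.log_nonneg hX1
  have hA := le_abs_self A
  have hA0 := abs_nonneg A
  have hyy : (X : ℝ) ^ (κ / 10) ≤ (X : ℝ) ^ κ :=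
    Real.rpow_le_rpow_of_exponent_le hX1 (by linarith)
  have hR : ((R2 κ X : ℕ) : ℝ) ≤ (X : ℝ) ^ (200 * κ) := Nat.floor_le (by positivity)
  have hRX : (X : ℝ) ^ (200 * κ) ≤ X := by
    calc (X : ℝ) ^ (200 * κ) ≤ (X : ℝ) ^ (1 : ℝ) :=
          Real.rpow_le_rpow_of_exponent_le hX1 (by linarith)
      _ = X := Real.rpow_one _
  have hlogR : Real.log (R2 κ X) ≤ Real.log X := by
    rcases Nat.eq_zero_or_pos (R2 κ X) with h | h
    · rw [h]; simpa using hlX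
    · exact Real.log_le_log (by exact_mod_cast h) (hR.trans hRX)
  have hlogR0 : 0 ≤ Real.log (R2 κ X) := Real.log_natCast_nonneg _
  have hEX : ((E2 κ X : ℕ) : ℝ) ≤ X := by
    calc ((E2 κ X : ℕ) : ℝ) ≤ (X : ℝ) ^ (1 / 2 + 3 * κ) := Nat.floor_le (by positivity)
      _ ≤ (X : ℝ) ^ (1 : ℝ) := Real.rpow_le_rpow_of_exponent_le hX1 (by linarith)
      _ = X := Real.rpow_one _
  have hlogD : Real.log ((2 * (B₀ + 1) * E2 κ X : ℕ) : ℝ) ≤
      Real.log (2 * ((B₀ : ℝ) + 1)) + Real.log X := by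
    rcases Nat.eq_zero_or_pos (E2 κ X) with h | h
    · rw [h]; simp; positivity
    · push_cast
      have h' : (0 : ℝ) < E2 κ X := by exact_mod_cast h
      rw [Real.log_mul (by positivity) h'.ne']
      have := Real.log_le_log h' hEX
      linarith
  have hlogD0 : 0 ≤ Real.log ((2 * (B₀ + 1) * E2 κ X : ℕ) : ℝ) := Real.log_natCast_nonneg _
  refine ⟨f6, by linarith, by linarith, ?_, ?_, ?_, hR, ?_, ?_⟩
  · have g1 : (1 + Real.log (R2 κ X)) ^ 2 ≤ (X : ℝ) ^ (κ / 20) := by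
      refine le_trans ?_ f2'
      rw [one_mul]
      exact pow_le_pow_left₀ (by linarith) (by linarith) 2
    have g2 : (1 + Real.log (R2 κ X)) * (1 + Real.log ((2 * (B₀ + 1) * E2 κ X : ℕ) : ℝ)) ≤
        (X : ℝ) ^ (κ / 20) := by
      refine le_trans ?_ f2
      calc (1 + Real.log (R2 κ X)) * (1 + Real.log ((2 * (B₀ + 1) * E2 κ X : ℕ) : ℝ))
          ≤ (1 + Real.log X) * ((1 + Real.log (2 * ((B₀ : ℝ) + 1))) * (1 + Real.log X)) := by
            refine mul_le_mul (by linarith) ?_ (by linarith) (by linarith)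
            nlinarith
        _ = _ := by ring
    calc (1 + Real.log (R2 κ X)) ^ 3 * (1 + Real.log ((2 * (B₀ + 1) * E2 κ X : ℕ) : ℝ))
        = (1 + Real.log (R2 κ X)) ^ 2 * ((1 + Real.log (R2 κ X)) *
          (1 + Real.log ((2 * (B₀ + 1) * E2 κ X : ℕ) : ℝ))) := by ring
      _ ≤ (X : ℝ) ^ (κ / 20) * (X : ℝ) ^ (κ / 20) :=
          mul_le_mul g1 g2 (mul_nonneg (by linarith) (by linarith)) (by positivity)
      _ = (X : ℝ) ^ (κ / 10) := by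
          rw [← Real.rpow_add hX0]; congr 1; ring
  · refine le_trans ?_ f3
    have g1 : Real.log (((X : ℝ) ^ κ) ^ 6)⁻¹ = -(6 * κ * Real.log X) := by
      rw [Real.log_inv, ← Real.rpow_natCast, ← Real.rpow_mul hX0.le, Real.log_rpow hX0]
      push_cast
      ring
    have g2 : Real.log (om2 κ X / 2) = -(30 * κ * Real.log X) - Real.log 2 := by
      unfold om2
      rw [Real.log_div (by positivity) (by norm_num), Real.log_rpow hX0]
      ring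
    rw [g1, g2]
    have g3 : Real.log 2 ≤ 1 := by
      have := Real.log_two_lt_d9
      linarith
    have g4 : κ * Real.log X ≤ Real.log X / 1000 := by
      nlinarith
    have g5 : 0 ≤ κ * Real.log X := by positivity
    have g6 : 1 - -(6 * κ * Real.log X) - (-(30 * κ * Real.log X) - Real.log 2) +
        2 * Real.log (1 + U) ≤ (2 + 2 * Real.log (1 + U)) * (1 + Real.log X) ^ 2 := by
      have h7 : 1 + Real.log X ≤ (1 + Real.log X) ^ 2 := by nlinarith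
      have h8 : 1 ≤ (1 + Real.log X) ^ 2 := by linarith
      generalize (1 + Real.log (X : ℝ)) ^ 2 = S at h7 h8
      have h9 : Real.log (1 + U) ≤ Real.log (1 + U) * S := le_mul_of_one_le_right hlU h8
      linarith
    rw [mul_assoc c₀]
    exact mul_le_mul_of_nonneg_left g6 (by linarith)
  · refine ⟨Ct * ((1 + 2 * U) * 8 * (X : ℝ) ^ (2 : ℝ)) ^ (κ / 100), by positivity, ?_, ?_⟩
    · rw [mul_pow, ← Real.rpow_natCast (((1 + 2 * U) * 8 * (X : ℝ) ^ (2 : ℝ)) ^ (κ / 100)),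
        ← Real.rpow_mul (by positivity), Real.mul_rpow (by positivity) (by positivity),
        ← Real.rpow_mul hX0.le, ← mul_assoc]
      rw [show κ / 100 * ((2 : ℕ) : ℝ) = κ / 50 by push_cast; ring]
      calc Ct ^ 2 * ((1 + 2 * U) * 8) ^ (κ / 50) * (X : ℝ) ^ (2 * (κ / 50))
          ≤ (X : ℝ) ^ (κ / 50) * (X : ℝ) ^ (2 * (κ / 50)) :=
            mul_le_mul_of_nonneg_right f4 (by positivity)
        _ = (X : ℝ) ^ (κ / 50 + 2 * (κ / 50)) := by rw [← Real.rpow_add hX0]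
        _ ≤ (X : ℝ) ^ (κ / 10) := Real.rpow_le_rpow_of_exponent_le hX1 (by linarith)
    · intro n hn
      refine (htau n).trans ?_
      refine mul_le_mul_of_nonneg_left ?_ (by linarith)
      refine Real.rpow_le_rpow (Nat.cast_nonneg _) (hn.trans ?_) (by positivity)
      rw [← mul_assoc]
      refine mul_le_mul_of_nonneg_left ?_ (by positivity)
      exact Real.rpow_le_rpow_of_exponent_le hX1 (by linarith)
  · have g1 : (X : ℝ) ^ (200 * κ) ≤ (X : ℝ) ^ (1 / 5 : ℝ) :=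
      Real.rpow_le_rpow_of_exponent_le hX1 (by linarith)
    have g2 : (X : ℝ) = (X : ℝ) ^ (4 / 5 : ℝ) * (X : ℝ) ^ (1 / 5 : ℝ) := by
      rw [← Real.rpow_add hX0]
      norm_num
    have g3 : 0 < (X : ℝ) ^ (1 / 5 : ℝ) := by positivity
    have g4 : 5 * (X : ℝ) ^ (1 / 5 : ℝ) ≤ X := by
      calc 5 * (X : ℝ) ^ (1 / 5 : ℝ) ≤ (X : ℝ) ^ (4 / 5 : ℝ) * (X : ℝ) ^ (1 / 5 : ℝ) :=
            mul_le_mul_of_nonneg_right f5 g3.le
        _ = X := g2.symm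
    linarith
  · have g1 : (X : ℝ) ^ (1 / 2 + 3 * κ) - 1 ≤ ((E2 κ X : ℕ) : ℝ) := by
      have := Nat.sub_one_lt_floor ((X : ℝ) ^ (1 / 2 + 3 * κ))
      exact this.le
    have g2 : 2 ≤ (X : ℝ) ^ (1 / 2 + 3 * κ) := by
      have h7 : (X : ℝ) ^ (κ / 10) ≤ (X : ℝ) ^ (1 / 2 + 3 * κ) :=
        Real.rpow_le_rpow_of_exponent_le hX1 (by linarith)
      linarith
    have g3 : (X : ℝ) ^ (1 / 2 + 3 * κ) / 2 ≤ ((E2 κ X : ℕ) : ℝ) := by linarith
    have g4 : ((X : ℝ) ^ (1 / 2 + 3 * κ)) ^ 2 = (X : ℝ) ^ κ * (X : ℝ) ^ (1 + 5 * κ) := by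
      rw [← Real.rpow_natCast, ← Real.rpow_mul hX0.le, ← Real.rpow_add hX0]
      congr 1
      push_cast
      ring
    have g5 : 16 * (X : ℝ) ^ (1 + 5 * κ) ≤ (X : ℝ) ^ κ * (X : ℝ) ^ (1 + 5 * κ) :=
      mul_le_mul_of_nonneg_right (by linarith) (by positivity)
    push_cast
    have g6 : ((X : ℝ) ^ (1 / 2 + 3 * κ) / 2) ^ 2 ≤ ((E2 κ X : ℕ) : ℝ) ^ 2 :=
      pow_le_pow_left₀ (by positivity) g3 2
    rw [div_pow, g4] at g6
    linarith

end Pool.Agent.LSPCE
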