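import Pool.Agent.Lib_helper84.LSP2.CE7

/-!
# LSP2, module CE: freezing with the parameters of the problem
-/

set_option autoImplicit false

namespace Pool.Agent.LSPCE

open Pool.Agent.LSP

open Pool.Agent.FG61 (mu phi cc ff AA Lam)
open Pool.Agent.LSPO (GOK KK hyp)
open Finset Filter Topology
open scoped ComplexConjugate

theorem num_err {y U c₀ K r T2 L M : ℝ} (hy : 1 ≤ y) (hU : 1 ≤ U) (hc : 1 ≤ c₀)
    (hK : K ≤ y) (hr0 : 0 ≤ r) (hr : r ≤ 32 * y ^ 5) (hT0 : 0 ≤ T2) (hT : T2 ≤ y)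
    (hL0 : 0 ≤ L) (hL : L ≤ y) (hM0 : 0 ≤ M) (hM : M ≤ y)
    (hA : 512 * Real.pi * U * ((216 * c₀ + 2) * (16 * U) + 1) ≤ y) :
    4 * Real.pi * (K * (4 * U * r)) * (T2 * (L *
      ((c₀ * (2 / (y ^ 6)⁻¹ + 4 / (y ^ 30)⁻¹) ^ 3 + 2 * M / (y ^ 30)⁻¹) *
        (8 * U * (2 * (y ^ 132)⁻¹)) + M * ((2 * (y ^ 132)⁻¹) / 2)))) ≤ (y ^ 20)⁻¹ := by
  have hy0 : 0 < y := by linarith
  have h1 : 2 / (y ^ 6)⁻¹ + 4 / (y ^ 30)⁻¹ ≤ 6 * y ^ 30 := by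
    rw [div_inv_eq_mul, div_inv_eq_mul]
    have : y ^ 6 ≤ y ^ 30 := pow_le_pow_right₀ hy (by norm_num)
    linarith
  have h2 : (2 / (y ^ 6)⁻¹ + 4 / (y ^ 30)⁻¹) ^ 3 ≤ 216 * y ^ 90 := by
    refine (pow_le_pow_left₀ (by positivity) h1 3).trans (le_of_eq ?_)
    ring
  have h3 : 2 * M / (y ^ 30)⁻¹ ≤ 2 * y ^ 90 := by
    rw [div_inv_eq_mul]
    have h4 : M * y ^ 30 ≤ y * y ^ 30 := mul_le_mul_of_nonneg_right hM (by positivity)
    have h5 : y * y ^ 30 ≤ y ^ 90 := by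
      rw [← pow_succ']
      exact pow_le_pow_right₀ hy (by norm_num)
    linarith
  have h4 : M ≤ y ^ 90 := hM.trans (le_self_pow₀ hy (by norm_num))
  set I : ℝ := (y ^ 132)⁻¹ with hI
  have hI0 : 0 ≤ I := by positivity
  have h5 : (c₀ * (2 / (y ^ 6)⁻¹ + 4 / (y ^ 30)⁻¹) ^ 3 + 2 * M / (y ^ 30)⁻¹) *
      (8 * U * (2 * I)) + M * ((2 * I) / 2) ≤
      ((216 * c₀ + 2) * (16 * U) + 1) * (y ^ 90 * I) := by
    have h6 : c₀ * (2 / (y ^ 6)⁻¹ + 4 / (y ^ 30)⁻¹) ^ 3 + 2 * M / (y ^ 30)⁻¹ ≤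
        (216 * c₀ + 2) * y ^ 90 := by
      have := mul_le_mul_of_nonneg_left h2 (by linarith : 0 ≤ c₀)
      linarith
    have h7 := mul_le_mul_of_nonneg_right h6 (by positivity : 0 ≤ 8 * U * (2 * I))
    have h8 := mul_le_mul_of_nonneg_right h4 hI0
    linarith
  have hB1 : 0 ≤ (216 * c₀ + 2) * (16 * U) + 1 := by positivity
  have h9 : 0 ≤ (c₀ * (2 / (y ^ 6)⁻¹ + 4 / (y ^ 30)⁻¹) ^ 3 + 2 * M / (y ^ 30)⁻¹) *
      (8 * U * (2 * I)) + M * ((2 * I) / 2) := by positivity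
  have h10 : K * (4 * U * r) ≤ y * (4 * U * (32 * y ^ 5)) :=
    mul_le_mul hK (mul_le_mul_of_nonneg_left hr (by positivity)) (by positivity) hy0.le
  have h11 : T2 * (L * ((c₀ * (2 / (y ^ 6)⁻¹ + 4 / (y ^ 30)⁻¹) ^ 3 + 2 * M / (y ^ 30)⁻¹) *
      (8 * U * (2 * I)) + M * ((2 * I) / 2))) ≤
      y * (y * (((216 * c₀ + 2) * (16 * U) + 1) * (y ^ 90 * I))) :=
    mul_le_mul hT (mul_le_mul hL h5 h9 hy0.le) (mul_nonneg hL0 h9) hy0.le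
  calc 4 * Real.pi * (K * (4 * U * r)) * (T2 * (L *
      ((c₀ * (2 / (y ^ 6)⁻¹ + 4 / (y ^ 30)⁻¹) ^ 3 + 2 * M / (y ^ 30)⁻¹) *
        (8 * U * (2 * I)) + M * ((2 * I) / 2))))
      ≤ 4 * Real.pi * (y * (4 * U * (32 * y ^ 5))) *
        (y * (y * (((216 * c₀ + 2) * (16 * U) + 1) * (y ^ 90 * I)))) :=
        mul_le_mul (mul_le_mul_of_nonneg_left h10 (by positivity)) h11
          (mul_nonneg hT0 (mul_nonneg hL0 h9)) (by positivity)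
    _ = (512 * Real.pi * U * ((216 * c₀ + 2) * (16 * U) + 1)) * (y ^ 98 * I) := by ring
    _ ≤ y * (y ^ 98 * I) := mul_le_mul_of_nonneg_right hA (by positivity)
    _ = y ^ 99 * I := by ring
    _ ≤ (y ^ 20)⁻¹ := by
        rw [hI, ← div_eq_mul_inv, div_le_iff₀ (by positivity), inv_mul_eq_div,
          le_div_iff₀ (by positivity), ← pow_add]
        exact pow_le_pow_right₀ hy (by norm_num)

theorem gs_ne (B E : ℕ) : ∀ g ∈ Gs B E, g ≠ 0 := by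
  intro g hg
  unfold Gs at hg
  exact ne_of_mem_erase hg

/-- freezing for one multiplier -/
theorem ts_par {G : ℝ → ℝ} {U c : ℝ} (hG : GOK G U c) (B₀ : ℕ) {κ : ℝ} (h0 : 0 < κ)
    (h1 : 1000 * κ ≤ 1) : ∃ X₀ : ℕ, ∀ X : ℕ, X₀ ≤ X → ∀ N : ℕ, X ≤ 4 * N →
    ∀ Z : ℝ, 0 < Z → |Real.log N - Real.log Z| ≤ (X : ℝ) ^ (-(132 * κ)) →
    ∀ (Q : ℕ) (C : ℕ → ℝ), CK2 κ X Q C → ∀ (s : ℕ) (σ : ℝ), 1 ≤ s → 0 < σ →
      (s : ℝ) * Q ≤ 8 * (X : ℝ) ^ (1 + 5 * κ) →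
      |Real.log s - Real.log σ| ≤ 2 * (X : ℝ) ^ (-(132 * κ)) →
      |Ts C G (om2 κ X) (E2 κ X ^ 2) (Gs B₀ (E2 κ X)) (2 * (B₀ + 1) * E2 κ X) (R2 κ X) s N s N -
        Ts C G (om2 κ X) (E2 κ X ^ 2) (Gs B₀ (E2 κ X)) (2 * (B₀ + 1) * E2 κ X) (R2 κ X) s N σ Z| ≤
      (X : ℝ) ^ (-(20 * κ)) := by
  have hU := hG.one_le
  have hc := hG.one_le'
  obtain ⟨X₀, hX₀⟩ := ce_par U c (512 * Real.pi * U * ((216 * c + 2) * (16 * U) + 1) + 64 * U)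
    hU hc B₀ h0 h1
  refine ⟨X₀, fun X hX N hXN Z hZ hNZ Q C hC s σ hs hσ hsQ hsσ => ?_⟩
  obtain ⟨g1, g2, -, g4, g5, ⟨T, hT0, hT2, hT⟩, g7, g8, g9⟩ := hX₀ X hX
  have hX0 : (0 : ℝ) < X := by linarith
  have hX1 : (1 : ℝ) ≤ X := by linarith
  set y : ℝ := (X : ℝ) ^ κ with hy
  have hpi : 0 < Real.pi := Real.pi_pos
  have hAA : 0 ≤ 512 * Real.pi * U * ((216 * c + 2) * (16 * U) + 1) := by positivity
  have hy64 : 64 * U ≤ y := by linarith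
  have hyA : 512 * Real.pi * U * ((216 * c + 2) * (16 * U) + 1) ≤ y := by linarith
  have hy1 : 1 ≤ y := by linarith
  have hy0 : 0 < y := by linarith
  have hyk : (X : ℝ) ^ (κ / 10) ≤ y := Real.rpow_le_rpow_of_exponent_le hX1 (by linarith)
  have e132 : (X : ℝ) ^ (-(132 * κ)) = (y ^ 132)⁻¹ := by
    have := pwn (X := (X : ℝ)) (κ := κ) hX0 132
    rw [hy, ← this]; norm_num
  have e30 : om2 κ X = (y ^ 30)⁻¹ := by
    unfold om2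
    have := pwn (X := (X : ℝ)) (κ := κ) hX0 30
    rw [hy, ← this]; norm_num
  have e20 : (X : ℝ) ^ (-(20 * κ)) = (y ^ 20)⁻¹ := by
    have := pwn (X := (X : ℝ)) (κ := κ) hX0 20
    rw [hy, ← this]; norm_num
  have e5 : (X : ℝ) ^ (1 + 5 * κ) = X * y ^ 5 := by
    have := pw (X := (X : ℝ)) (κ := κ) hX0 5
    rw [hy, ← this, Real.rpow_add hX0, Real.rpow_one]; norm_num
  rw [e5] at hsQ hT
  rw [e132] at hNZ hsσ
  have hN4 : (X : ℝ) / 4 ≤ N := by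
    have : (X : ℝ) ≤ 4 * N := by exact_mod_cast hXN
    linarith
  have hN0 : (0 : ℝ) < N := by linarith
  have hN1 : 1 ≤ N := by
    have : 0 < N := by exact_mod_cast hN0
    omega
  have hs0 : (0 : ℝ) < s := by exact_mod_cast hs
  have hom : 0 < om2 κ X := by rw [e30]; positivity
  set M : ℝ := c * (1 - Real.log (y ^ 6)⁻¹ - Real.log (om2 κ X / 2) + 2 * Real.log (1 + U)) with hMd
  have ha : 0 < (y ^ 6)⁻¹ := by positivity
  have ha1 : (y ^ 6)⁻¹ ≤ 1 := inv_le_one_of_one_le₀ (one_le_pow₀ hy1)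
  have hom1 : om2 κ X / 2 ≤ 1 := by
    rw [e30]
    have : (y ^ 30)⁻¹ ≤ 1 := inv_le_one_of_one_le₀ (one_le_pow₀ hy1)
    linarith
  have hM : ∀ v : ℝ, (y ^ 6)⁻¹ ≤ |v| → om2 κ X / 2 ≤ |1 - v| → |G v| ≤ M := fun v hv1 hv2 =>
    Pool.Agent.LSPO.G_bound hG ha ha1 (by positivity) hom1 hv1 hv2
  have hM0 : 0 ≤ M := by
    have l1 : Real.log (y ^ 6)⁻¹ ≤ 0 := Real.log_nonpos ha.le ha1
    have l2 : Real.log (om2 κ X / 2) ≤ 0 := Real.log_nonpos (by positivity) hom1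
    have l3 : 0 ≤ Real.log (1 + U) := Real.log_nonneg (by linarith)
    rw [hMd]
    exact mul_nonneg (by linarith) (by linarith)
  have hKbd : (X : ℝ) ^ (κ / 100) ≤ y := Real.rpow_le_rpow_of_exponent_le hX1 (by linarith)
  have hw8 : 8 * (2 * (y ^ 132)⁻¹) ≤ 1 := by
    have h2 : y ≤ y ^ 132 := le_self_pow₀ hy1 (by norm_num)
    have h3 : (y ^ 132)⁻¹ ≤ y⁻¹ := inv_anti₀ hy0 h2
    have h4 : y⁻¹ ≤ 1 / 64 := by
      rw [inv_le_comm₀ hy0 (by norm_num)]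
      norm_num
      linarith
    linarith
  have hUw : 8 * U * (2 * (y ^ 132)⁻¹) ≤ om2 κ X / 2 := by
    rw [e30]
    have h3 : y ^ 132 = y ^ 30 * y ^ 102 := by rw [← pow_add]
    have h4 : y ≤ y ^ 102 := le_self_pow₀ hy1 (by norm_num)
    have h5 : 16 * U * (y ^ 102)⁻¹ ≤ 1 / 2 := by
      rw [← div_eq_mul_inv, div_le_iff₀ (by positivity)]
      linarith
    calc 8 * U * (2 * (y ^ 132)⁻¹) = (y ^ 30)⁻¹ * (16 * U * (y ^ 102)⁻¹) := by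
          rw [h3, mul_inv]; ring
      _ ≤ (y ^ 30)⁻¹ * (1 / 2) := mul_le_mul_of_nonneg_left h5 (by positivity)
      _ = (y ^ 30)⁻¹ / 2 := by ring
  have haN : 2 * (y ^ 6)⁻¹ * ((s : ℝ) * Q) ≤ N := by
    calc 2 * (y ^ 6)⁻¹ * ((s : ℝ) * Q) ≤ 2 * (y ^ 6)⁻¹ * (8 * (X * y ^ 5)) :=
          mul_le_mul_of_nonneg_left hsQ (by positivity)
      _ = 16 * X / y := by field_simp; ring
      _ ≤ X / 4 := by
          rw [div_le_div_iff₀ hy0 (by norm_num)]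
          nlinarith
      _ ≤ N := hN4
  have hmain := freeze_one hG (om := om2 κ X) (a := (y ^ 6)⁻¹) (M := M) (T := T)
    (K := (X : ℝ) ^ (κ / 100)) (w := 2 * (y ^ 132)⁻¹) hom ha hM0 hM (E2 κ X ^ 2)
    (2 * (B₀ + 1) * E2 κ X) (R2 κ X) (Q' := Q) (s := s) (N := N) (σ := σ) (Z := Z)
    (S := Gs B₀ (E2 κ X)) (gs_ne _ _) (C := C) hs hN1 hσ hZ hw8 hsσ
    (hNZ.trans (by
      have : 0 ≤ (y ^ 132)⁻¹ := by positivity
      linarith)) (by positivity) hC.bdd hC.supp haN hUw hT0 (fun n hn => hT n (hn.trans (by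
        exact mul_le_mul_of_nonneg_left hsQ (by linarith))))
  refine hmain.trans ?_
  rw [e20, e30]
  have hr : (s : ℝ) * Q / N ≤ 32 * y ^ 5 := by
    rw [div_le_iff₀ hN0]
    calc (s : ℝ) * Q ≤ 8 * (X * y ^ 5) := hsQ
      _ = 32 * y ^ 5 * (X / 4) := by ring
      _ ≤ 32 * y ^ 5 * N := mul_le_mul_of_nonneg_left hN4 (by positivity)
  have hLD := Real.log_natCast_nonneg (2 * (B₀ + 1) * E2 κ X)
  have hLR := Real.log_natCast_nonneg (R2 κ X)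
  have hL : (1 + Real.log (R2 κ X)) * (1 + Real.log ((2 * (B₀ + 1) * E2 κ X : ℕ) : ℝ)) ≤ y := by
    refine le_trans (mul_le_mul_of_nonneg_right ?_ (by linarith)) (g4.trans hyk)
    exact le_self_pow₀ (by linarith) (by norm_num)
  have hfin := num_err (K := (X : ℝ) ^ (κ / 100)) (r := (s : ℝ) * Q / N) (T2 := T ^ 2)
    (L := (1 + Real.log (R2 κ X)) * (1 + Real.log ((2 * (B₀ + 1) * E2 κ X : ℕ) : ℝ))) (M := M)
    hy1 hU hc hKbd (by positivity) hr (by positivity) (hT2.trans hyk)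
    (mul_nonneg (by linarith) (by linarith)) hL hM0 (g5.trans hyk) hyA
  refine le_trans (le_of_eq ?_) hfin
  rw [mul_div_assoc (4 * U)]

end Pool.Agent.LSPCE
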