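import Pool.Agent.Lib_helper84.LSP2.CE8
import Pool.Agent.Lib_helper84.LSP2.DefsC

/-!
# LSP2, module CE: freezing and expansion for the windows
-/

set_option autoImplicit false

namespace Pool.Agent.LSPCE

open Pool.Agent.LSP

open Pool.Agent.FG61 (mu phi cc ff AA Lam)
open Pool.Agent.LSPO (GOK KK hyp)
open Finset Filter Topology
open scoped ComplexConjugate

theorem cop_of_lt {p R : ℕ} (hp : p.Prime) (h : R < p) : ∀ c ∈ Icc 1 R, p.Coprime c := by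
  intro c hc
  rw [mem_Icc] at hc
  rw [hp.coprime_iff_not_dvd]
  intro h2
  have := Nat.le_of_dvd (by omega) h2
  omega

/-- the total weight of the pairs -/
theorem w_total {κ v Cw : ℝ} {X J : ℕ} {dl : ℝ} {ε : (q : ℕ) → DirichletCharacter ℂ q → ℝ}
    {u : ℕ → ℕ → ℝ} (hW : Win κ v Cw X J dl ε u) {M : ℕ → ℝ} (hM : ∀ j, 0 ≤ M j)
    (hM1 : ∑ j ∈ range J, M j ≤ 1) {θ : ℕ × ℕ → ℝ} (hθ : ∀ j p, u j p ≠ 0 → |θ (j, p)| ≤ 1) :
    ∑ i ∈ range J ×ˢ PB κ v X, |M i.1 * u i.1 i.2 * θ i| ≤ 1 := by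
  rw [sum_product]
  refine le_trans (sum_le_sum fun j hj => ?_) hM1
  rw [mem_range] at hj
  calc ∑ p ∈ PB κ v X, |M j * u j p * θ (j, p)| ≤ ∑ p ∈ PB κ v X, M j * u j p := by
        refine sum_le_sum fun p _ => ?_
        by_cases h : u j p = 0
        · rw [h]; simp
        · rw [abs_mul, abs_of_nonneg (mul_nonneg (hM j) (hW.nonneg j p))]
          exact mul_le_of_le_one_right (mul_nonneg (hM j) (hW.nonneg j p)) (hθ j p h)
    _ = M j * ∑ p ∈ PB κ v X, u j p := by rw [mul_sum]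
    _ = M j := by rw [hW.one j hj, mul_one]

/-- the facts about the primes of the band and the level -/
theorem band_facts {κ v : ℝ} (h0 : 0 < κ) (h1 : 1000 * κ ≤ v) {X : ℕ} (hX1 : (1 : ℝ) ≤ X)
    (hy : 16 ≤ (X : ℝ) ^ κ) (hR : ((R2 κ X : ℕ) : ℝ) ≤ (X : ℝ) ^ (200 * κ)) :
    ∀ p ∈ PB κ v X, 1 ≤ p ∧ (p : ℝ) ≤ 2 * (X : ℝ) ^ (v + κ) ∧
      (p.Prime → ∀ c ∈ Icc 1 (R2 κ X), p.Coprime c) := by
  intro p hp
  unfold PB at hp
  rw [mem_filter, mem_Icc] at hp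
  obtain ⟨⟨h2, h3⟩, h4, h5⟩ := hp
  have hX0 : (0 : ℝ) < X := by linarith
  refine ⟨h2, (Nat.le_floor_iff (by positivity)).1 h3, fun hpp => cop_of_lt hpp ?_⟩
  have h6 : (X : ℝ) ^ (200 * κ) < (X : ℝ) ^ v / 2 := by
    have h7 : (X : ℝ) ^ (200 * κ) * (X : ℝ) ^ κ ≤ (X : ℝ) ^ v := by
      rw [← Real.rpow_add hX0]
      exact Real.rpow_le_rpow_of_exponent_le hX1 (by linarith)
    have h8 : 0 < (X : ℝ) ^ (200 * κ) := by positivity
    nlinarith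
  have h9 : ((R2 κ X : ℕ) : ℝ) < p := by linarith
  exact_mod_cast h9

theorem level_facts {κ : ℝ} {X N : ℕ} {Z : ℝ} (hX1 : (1 : ℝ) ≤ X)
    (hy : 16 ≤ (X : ℝ) ^ κ) (hκ : 0 < κ) (hZ : (X : ℝ) / 2 ≤ Z) (hN : N.Prime)
    (hNZ : |Real.log ((N : ℝ) / Z)| ≤ (X : ℝ) ^ (-(132 * κ))) :
    X ≤ 4 * N ∧ 0 < Z ∧ |Real.log N - Real.log Z| ≤ (X : ℝ) ^ (-(132 * κ)) := by
  have hX0 : (0 : ℝ) < X := by linarith
  have hZ0 : 0 < Z := by linarith
  have hN0 : (0 : ℝ) < N := by exact_mod_cast hN.pos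
  rw [Real.log_div hN0.ne' hZ0.ne'] at hNZ
  refine ⟨?_, hZ0, hNZ⟩
  have h1 : (X : ℝ) ^ (-(132 * κ)) ≤ 1 / 16 := by
    have h2 : (X : ℝ) ^ (-(132 * κ)) ≤ (X : ℝ) ^ (-κ) :=
      Real.rpow_le_rpow_of_exponent_le hX1 (by linarith)
    refine h2.trans ?_
    rw [Real.rpow_neg hX0.le, one_div]
    exact inv_anti₀ (by norm_num) hy
  have h3 := (abs_le.1 (hNZ.trans h1)).1
  have h4 : Real.log Z - 1 / 16 ≤ Real.log N := by linarith
  have h5 : Z * Real.exp (-(1 / 16)) ≤ N := by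
    have := Real.exp_le_exp.2 h4
    rw [Real.exp_log hN0, sub_eq_add_neg, Real.exp_add, Real.exp_log hZ0] at this
    exact this
  have h6 : (1 : ℝ) / 2 ≤ Real.exp (-(1 / 16)) := by
    have := Real.add_one_le_exp (-(1 / 16) : ℝ)
    linarith
  have h7 : (X : ℝ) ≤ 4 * N := by nlinarith
  exact_mod_cast h7

/-- freezing and character expansion, linear case -/
theorem ce_cross_pr {G : ℝ → ℝ} {U c : ℝ} (hG : Pool.Agent.LSPO.GOK G U c) {B₀ : ℕ}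
    {κ v Cw : ℝ} (h0 : 0 < κ) (h1 : 1000 * κ ≤ v) (h2 : v ≤ 1 / 80) : ∃ X₀ : ℕ, ∀ X : ℕ, X₀ ≤ X →
    ∀ (J : ℕ) (dl : ℝ) (ε : (q : ℕ) → DirichletCharacter ℂ q → ℝ) (u : ℕ → ℕ → ℝ),
    Win κ v Cw X J dl ε u → ∀ M : ℕ → ℝ, (∀ j, 0 ≤ M j) → ∑ j ∈ range J, M j ≤ 1 →
    ∀ θ : ℕ × ℕ → ℝ, (∀ j p, u j p ≠ 0 → |θ (j, p)| ≤ 1) →
    ∀ Z : ℝ, (X : ℝ) / 2 ≤ Z → Z ≤ 4 * X → ∀ N : ℕ, N.Prime →
    |Real.log ((N : ℝ) / Z)| ≤ (X : ℝ) ^ (-(132 * κ)) → ∀ (Q : ℕ) (C : ℕ → ℝ), CK2 κ X Q C →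
    (Q : ℝ) * (X : ℝ) ^ (v + κ) ≤ (X : ℝ) ^ (1 + 5 * κ) →
      |SMg (CY (PB κ v X) (bW J M u θ) C) G (om2 κ X) (E2 κ X ^ 2) (Gs B₀ (E2 κ X))
          (2 * (B₀ + 1) * E2 κ X) (R2 κ X) N -
        (∑ ψ ∈ Chs (R2 κ X), conj (ψ.2 (N : ZMod ψ.1)) * ∑ j ∈ range J,
          AW (PB κ v X) M u θ ψ j * PK2 κ B₀ X G C ψ (Zj v X dl j) Z).re| ≤
        (X : ℝ) ^ (-(20 * κ)) := by
  obtain ⟨X₁, hX₁⟩ := ts_par hG B₀ h0 (by linarith : 1000 * κ ≤ 1)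
  obtain ⟨X₂, hX₂⟩ := ce_par U c 16 hG.one_le hG.one_le' B₀ h0 (by linarith : 1000 * κ ≤ 1)
  refine ⟨max X₁ X₂, fun X hX J dl ε u hW M hM hM1 θ hθ Z hZ1 hZ2 N hN hNZ Q C hC hQ => ?_⟩
  obtain ⟨g1, g2, -, -, -, -, g7, g8, g9⟩ := hX₂ X ((le_max_right _ _).trans hX)
  have hX0 : (0 : ℝ) < X := by linarith
  have hX1 : (1 : ℝ) ≤ X := by linarith
  have hband := band_facts (v := v) h0 h1 hX1 g2 g7
  obtain ⟨l1, l2, l3⟩ := level_facts hX1 g2 h0 hZ1 hN hNZ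
  have hNR : R2 κ X < N := by
    have h5 : (X : ℝ) ≤ 4 * N := by exact_mod_cast l1
    have h6 : ((R2 κ X : ℕ) : ℝ) < N := by linarith
    exact_mod_cast h6
  have hQ0 : (0 : ℝ) ≤ Q := Nat.cast_nonneg _
  have hpQ : ∀ p ∈ PB κ v X, (p : ℝ) * Q ≤ 2 * (X : ℝ) ^ (1 + 5 * κ) := by
    intro p hp
    have := mul_le_mul_of_nonneg_right (hband p hp).2.1 hQ0
    linarith
  have hX5 : 0 < (X : ℝ) ^ (1 + 5 * κ) := by positivity
  have hfam := freeze_fam (range J ×ˢ PB κ v X) (fun i => M i.1 * u i.1 i.2 * θ i)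
    (fun i => i.2) (fun i => Zj v X dl i.1) (C := C) (G := G) (om := om2 κ X)
    (Q := E2 κ X ^ 2) (S := Gs B₀ (E2 κ X)) (Dl := 2 * (B₀ + 1) * E2 κ X) (R := R2 κ X) (N := N)
    (Z := Z) (er := (X : ℝ) ^ (-(20 * κ)))
    (fun i hi hWi => by
      have h5 : u i.1 i.2 ≠ 0 := by
        intro h6; apply hWi; simp only [h6]; ring
      exact (hband i.2 (mem_product.1 hi).2).2.2 (hW.supp _ _ h5).2.1)
    (cop_of_lt hN hNR) (w_total hW hM hM1 hθ) (by positivity)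
    (fun i hi hWi => by
      have h5 : u i.1 i.2 ≠ 0 := by
        intro h6; apply hWi; simp only [h6]; ring
      have h7 := (hW.supp _ _ h5).2.2.1
      refine hX₁ X ((le_max_left _ _).trans hX) N l1 Z l2 l3 Q C hC i.2 (Zj v X dl i.1)
        (hband i.2 (mem_product.1 hi).2).1 (by unfold Zj; positivity) ?_ ?_
      · have := hpQ i.2 (mem_product.1 hi).2
        linarith
      · have h8 : Real.log (Zj v X dl i.1) = v * Real.log X + i.1 * dl := by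
          unfold Zj
          rw [Real.log_mul (by positivity) (by positivity), Real.log_rpow hX0, Real.log_exp]
        rw [h8]
        have h9 : 0 < (X : ℝ) ^ (-(132 * κ)) := by positivity
        linarith)
  have e1 : SMg (CY (PB κ v X) (bW J M u θ) C) G (om2 κ X) (E2 κ X ^ 2) (Gs B₀ (E2 κ X))
          (2 * (B₀ + 1) * E2 κ X) (R2 κ X) N =
      ∑ i ∈ range J ×ˢ PB κ v X, M i.1 * u i.1 i.2 * θ i *
        Ts C G (om2 κ X) (E2 κ X ^ 2) (Gs B₀ (E2 κ X)) (2 * (B₀ + 1) * E2 κ X) (R2 κ X) i.2 N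
          i.2 N := by
    rw [smg_cy (fun p hp => (hband p hp).1) (bW J M u θ) hC.supp (fun p hp => by
      have h5 := hpQ p hp
      have h6 : (p : ℝ) * Q ≤ ((E2 κ X ^ 2 : ℕ) : ℝ) := by linarith
      exact_mod_cast h6), sum_product, sum_comm]
    refine sum_congr rfl fun p hp => ?_
    have hp0 : (p : ℝ) ≠ 0 := by
      have := (hband p hp).1
      positivity
    unfold bW
    rw [mul_div_cancel_left₀ _ hp0, sum_mul]
  have e2 : ∀ ψ ∈ Chs (R2 κ X), conj (ψ.2 (N : ZMod ψ.1)) * ∑ j ∈ range J,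
          AW (PB κ v X) M u θ ψ j * PK2 κ B₀ X G C ψ (Zj v X dl j) Z =
      conj (ψ.2 (N : ZMod ψ.1)) * ∑ i ∈ range J ×ˢ PB κ v X,
        ((M i.1 * u i.1 i.2 * θ i : ℝ) : ℂ) * ψ.2 ((i.2 : ℕ) : ZMod ψ.1) *
        PsiK C G (om2 κ X) (E2 κ X ^ 2) (Gs B₀ (E2 κ X)) (2 * (B₀ + 1) * E2 κ X) (R2 κ X) ψ
          (Zj v X dl i.1) Z := by
    intro ψ _
    congr 1
    rw [sum_product]
    refine sum_congr rfl fun j _ => ?_
    unfold AW PK2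
    rw [sum_mul]
    refine sum_congr rfl fun p _ => ?_
    push_cast
    ring
  rw [e1, sum_congr rfl e2]
  exact hfam

/-- freezing and character expansion, quadratic case -/
theorem ce_quad_pr {G : ℝ → ℝ} {U c : ℝ} (hG : Pool.Agent.LSPO.GOK G U c) {B₀ : ℕ}
    {κ v Cw : ℝ} (h0 : 0 < κ) (h1 : 1000 * κ ≤ v) (h2 : v ≤ 1 / 80) : ∃ X₀ : ℕ, ∀ X : ℕ, X₀ ≤ X →
    ∀ (J : ℕ) (dl : ℝ) (ε : (q : ℕ) → DirichletCharacter ℂ q → ℝ) (u : ℕ → ℕ → ℝ),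
    Win κ v Cw X J dl ε u → ∀ M : ℕ → ℝ, (∀ j, 0 ≤ M j) → ∑ j ∈ range J, M j ≤ 1 →
    ∀ θ : ℕ × ℕ → ℝ, (∀ j p, u j p ≠ 0 → |θ (j, p)| ≤ 1) →
    ∀ Z : ℝ, (X : ℝ) / 2 ≤ Z → Z ≤ 4 * X → ∀ N : ℕ, N.Prime →
    |Real.log ((N : ℝ) / Z)| ≤ (X : ℝ) ^ (-(132 * κ)) → ∀ (Q : ℕ) (C : ℕ → ℝ), CK2 κ X Q C →
    (Q : ℝ) * (X : ℝ) ^ (2 * (v + κ)) ≤ (X : ℝ) ^ (1 + 5 * κ) →
      |SMg (CY (PB κ v X) (bW J M u θ) (CY (PB κ v X) (bW J M u θ) C)) G (om2 κ X)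
          (E2 κ X ^ 2) (Gs B₀ (E2 κ X)) (2 * (B₀ + 1) * E2 κ X) (R2 κ X) N -
        (∑ ψ ∈ Chs (R2 κ X), conj (ψ.2 (N : ZMod ψ.1)) * ∑ j ∈ range J, ∑ k ∈ range J,
          AW (PB κ v X) M u θ ψ j * AW (PB κ v X) M u θ ψ k *
            PK2 κ B₀ X G C ψ (Zj v X dl j * Zj v X dl k) Z).re| ≤
        (X : ℝ) ^ (-(20 * κ)) := by
  obtain ⟨X₁, hX₁⟩ := ts_par hG B₀ h0 (by linarith : 1000 * κ ≤ 1)
  obtain ⟨X₂, hX₂⟩ := ce_par U c 16 hG.one_le hG.one_le' B₀ h0 (by linarith : 1000 * κ ≤ 1)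
  refine ⟨max X₁ X₂, fun X hX J dl ε u hW M hM hM1 θ hθ Z hZ1 hZ2 N hN hNZ Q C hC hQ => ?_⟩
  obtain ⟨g1, g2, -, -, -, -, g7, g8, g9⟩ := hX₂ X ((le_max_right _ _).trans hX)
  have hX0 : (0 : ℝ) < X := by linarith
  have hX1 : (1 : ℝ) ≤ X := by linarith
  have hband := band_facts (v := v) h0 h1 hX1 g2 g7
  obtain ⟨l1, l2, l3⟩ := level_facts hX1 g2 h0 hZ1 hN hNZ
  have hNR : R2 κ X < N := by
    have h5 : (X : ℝ) ≤ 4 * N := by exact_mod_cast l1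
    have h6 : ((R2 κ X : ℕ) : ℝ) < N := by linarith
    exact_mod_cast h6
  have hQ0 : (0 : ℝ) ≤ Q := Nat.cast_nonneg _
  have hX5 : 0 < (X : ℝ) ^ (1 + 5 * κ) := by positivity
  set Pm : ℕ := ⌊2 * (X : ℝ) ^ (v + κ)⌋₊ with hPm
  have hPm1 : (Pm : ℝ) ≤ 2 * (X : ℝ) ^ (v + κ) := Nat.floor_le (by positivity)
  have hPm2 : ∀ p ∈ PB κ v X, p ≤ Pm := fun p hp => by
    rw [hPm]; exact Nat.le_floor (hband p hp).2.1
  have hPQ : (Pm : ℝ) * (Pm * Q) ≤ 4 * (X : ℝ) ^ (1 + 5 * κ) := by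
    have h5 : (Pm : ℝ) * Pm ≤ 4 * (X : ℝ) ^ (2 * (v + κ)) := by
      have h6 : (X : ℝ) ^ (2 * (v + κ)) = (X : ℝ) ^ (v + κ) * (X : ℝ) ^ (v + κ) := by
        rw [← Real.rpow_add hX0]; congr 1; ring
      rw [h6]
      have := mul_le_mul hPm1 hPm1 (Nat.cast_nonneg _) (by positivity)
      linarith
    have := mul_le_mul_of_nonneg_right h5 hQ0
    linarith
  have hpqQ : ∀ p ∈ PB κ v X, ∀ q ∈ PB κ v X,
      ((p * q : ℕ) : ℝ) * Q ≤ 4 * (X : ℝ) ^ (1 + 5 * κ) := by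
    intro p hp q hq
    refine le_trans ?_ hPQ
    have h5 : ((p * q : ℕ) : ℝ) ≤ Pm * Pm := by exact_mod_cast Nat.mul_le_mul (hPm2 p hp) (hPm2 q hq)
    have := mul_le_mul_of_nonneg_right h5 hQ0
    linarith
  set W : ℕ × ℕ → ℝ := fun i => M i.1 * u i.1 i.2 * θ i with hWd
  have hWt : ∑ i ∈ range J ×ˢ PB κ v X, |W i| ≤ 1 := w_total hW hM hM1 hθ
  have hWu : ∀ i : ℕ × ℕ, W i ≠ 0 → u i.1 i.2 ≠ 0 := by
    intro i hWi h6
    apply hWi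
    simp only [hWd, h6]
    ring
  have hfam := freeze_fam ((range J ×ˢ PB κ v X) ×ˢ (range J ×ˢ PB κ v X))
    (fun i => W i.1 * W i.2)
    (fun i => i.1.2 * i.2.2) (fun i => Zj v X dl i.1.1 * Zj v X dl i.2.1) (C := C) (G := G)
    (om := om2 κ X)
    (Q := E2 κ X ^ 2) (S := Gs B₀ (E2 κ X)) (Dl := 2 * (B₀ + 1) * E2 κ X) (R := R2 κ X) (N := N)
    (Z := Z) (er := (X : ℝ) ^ (-(20 * κ)))
    (fun i hi hWi => by
      have h5 := left_ne_zero_of_mul hWi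
      have h6 := right_ne_zero_of_mul hWi
      obtain ⟨h7, h8⟩ := mem_product.1 hi
      intro c hc
      exact Nat.Coprime.mul_left
        ((hband _ (mem_product.1 h7).2).2.2 (hW.supp _ _ (hWu _ h5)).2.1 c hc)
        ((hband _ (mem_product.1 h8).2).2.2 (hW.supp _ _ (hWu _ h6)).2.1 c hc))
    (cop_of_lt hN hNR) (by
      rw [sum_product]
      calc ∑ x ∈ range J ×ˢ PB κ v X, ∑ z ∈ range J ×ˢ PB κ v X, |W x * W z|
          = (∑ x ∈ range J ×ˢ PB κ v X, |W x|) * ∑ z ∈ range J ×ˢ PB κ v X, |W z| := by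
            rw [sum_mul_sum]
            exact sum_congr rfl fun x _ => sum_congr rfl fun z _ => abs_mul _ _
        _ ≤ 1 * 1 := mul_le_mul hWt hWt (sum_nonneg fun _ _ => abs_nonneg _) (by norm_num)
        _ = 1 := one_mul _) (by positivity)
    (fun i hi hWi => by
      have h5 := left_ne_zero_of_mul hWi
      have h6 := right_ne_zero_of_mul hWi
      obtain ⟨h7, h8⟩ := mem_product.1 hi
      have h9 := (hW.supp _ _ (hWu _ h5)).2.2.1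
      have h10 := (hW.supp _ _ (hWu _ h6)).2.2.1
      have hp1 := (hband _ (mem_product.1 h7).2).1
      have hq1 := (hband _ (mem_product.1 h8).2).1
      refine hX₁ X ((le_max_left _ _).trans hX) N l1 Z l2 l3 Q C hC (i.1.2 * i.2.2)
        (Zj v X dl i.1.1 * Zj v X dl i.2.1) (Nat.mul_pos hp1 hq1) (by unfold Zj; positivity) ?_ ?_
      · have := hpqQ _ (mem_product.1 h7).2 _ (mem_product.1 h8).2
        linarith
      · have h8 : ∀ j : ℕ, Real.log (Zj v X dl j) = v * Real.log X + j * dl := by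
          intro j
          unfold Zj
          rw [Real.log_mul (by positivity) (by positivity), Real.log_rpow hX0, Real.log_exp]
        have hz : ∀ j : ℕ, Zj v X dl j ≠ 0 := by intro j; unfold Zj; positivity
        have hp0 : ((i.1.2 : ℕ) : ℝ) ≠ 0 := by
          have : i.1.2 ≠ 0 := by omega
          exact_mod_cast this
        have hq0 : ((i.2.2 : ℕ) : ℝ) ≠ 0 := by
          have : i.2.2 ≠ 0 := by omega
          exact_mod_cast this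
        rw [Real.log_mul (hz _) (hz _), h8, h8]
        push_cast
        rw [Real.log_mul hp0 hq0]
        have := abs_add_le (Real.log (i.1.2 : ℝ) - (v * Real.log X + i.1.1 * dl))
          (Real.log (i.2.2 : ℝ) - (v * Real.log X + i.2.1 * dl))
        rw [show Real.log (i.1.2 : ℝ) + Real.log (i.2.2 : ℝ) -
          (v * Real.log X + i.1.1 * dl + (v * Real.log X + i.2.1 * dl)) =
          Real.log (i.1.2 : ℝ) - (v * Real.log X + i.1.1 * dl) +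
          (Real.log (i.2.2 : ℝ) - (v * Real.log X + i.2.1 * dl)) by ring]
        linarith)
  have hbW : ∀ p ∈ PB κ v X, bW J M u θ p / p = ∑ j ∈ range J, W (j, p) := by
    intro p hp
    have hp0 : (p : ℝ) ≠ 0 := by
      have := (hband p hp).1
      positivity
    unfold bW
    rw [mul_div_cancel_left₀ _ hp0]
  have e1 : SMg (CY (PB κ v X) (bW J M u θ) (CY (PB κ v X) (bW J M u θ) C)) G (om2 κ X)
        (E2 κ X ^ 2) (Gs B₀ (E2 κ X)) (2 * (B₀ + 1) * E2 κ X) (R2 κ X) N =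
      ∑ i ∈ (range J ×ˢ PB κ v X) ×ˢ (range J ×ˢ PB κ v X), W i.1 * W i.2 *
        Ts C G (om2 κ X) (E2 κ X ^ 2) (Gs B₀ (E2 κ X)) (2 * (B₀ + 1) * E2 κ X) (R2 κ X)
          (i.1.2 * i.2.2) N ((i.1.2 * i.2.2 : ℕ) : ℝ) N := by
    rw [smg_cy2 (fun p hp => (hband p hp).1) hPm2 (bW J M u θ) hC.supp (by
      have h6 : (Pm : ℝ) * (Pm * Q) ≤ ((E2 κ X ^ 2 : ℕ) : ℝ) := by linarith
      exact_mod_cast h6)]
    symm
    rw [sum_product, sum_product, sum_comm]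
    refine sum_congr rfl fun p hp => ?_
    rw [sum_congr rfl fun j _ => sum_product _ _ _]
    rw [sum_congr rfl fun j _ => sum_comm, sum_comm]
    refine sum_congr rfl fun q hq => ?_
    symm
    rw [hbW p hp, hbW q hq, sum_mul_sum, sum_mul]
    refine sum_congr rfl fun j _ => ?_
    rw [sum_mul]
  have e2 : ∀ ψ ∈ Chs (R2 κ X), conj (ψ.2 (N : ZMod ψ.1)) * ∑ j ∈ range J, ∑ k ∈ range J,
          AW (PB κ v X) M u θ ψ j * AW (PB κ v X) M u θ ψ k *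
            PK2 κ B₀ X G C ψ (Zj v X dl j * Zj v X dl k) Z =
      conj (ψ.2 (N : ZMod ψ.1)) * ∑ i ∈ (range J ×ˢ PB κ v X) ×ˢ (range J ×ˢ PB κ v X),
        ((W i.1 * W i.2 : ℝ) : ℂ) * ψ.2 ((i.1.2 * i.2.2 : ℕ) : ZMod ψ.1) *
        PsiK C G (om2 κ X) (E2 κ X ^ 2) (Gs B₀ (E2 κ X)) (2 * (B₀ + 1) * E2 κ X) (R2 κ X) ψ
          (Zj v X dl i.1.1 * Zj v X dl i.2.1) Z := by
    intro ψ _
    congr 1
    rw [sum_product, sum_product]
    refine sum_congr rfl fun j _ => ?_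
    symm
    rw [sum_congr rfl fun p _ => sum_product _ _ _, sum_comm]
    refine sum_congr rfl fun k _ => ?_
    symm
    unfold AW PK2
    rw [sum_mul_sum, sum_mul]
    refine sum_congr rfl fun p _ => ?_
    rw [sum_mul]
    refine sum_congr rfl fun q _ => ?_
    simp only [hWd]
    push_cast
    rw [map_mul]
    ring
  rw [e1, sum_congr rfl e2]
  exact hfam

end Pool.Agent.LSPCE
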